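import Pool.Agent.MP_7be75d_co.Main

-- ======== part 0: formerly Pool.Agent.MP_35cb46_co.Free
section MrgPart0

/-! Free families of terminals, irrelevant vertices, augmentation and extension. -/

namespace Pool.Agent.MP_35cb46_co

open Finset Pool.Agent.MP_7be75d_co
open scoped Classical

variable {V : Type} {G : SimpleGraph V}

/-- At most `|Z|` members of the family `x` lie outside `β Z`. -/
def FreeH {κ : Type} [Fintype κ] (K : ℕ) (β : Finset V → Finset V) (x : κ → V) : Prop :=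
  ∀ Z : Finset V, Z.card < K → (univ.filter fun i => x i ∉ β Z).card ≤ Z.card

/-- The family `x` is free for a haven of order `K` in `U`. -/
def Fr {κ : Type} [Fintype κ] (G : SimpleGraph V) (U : Finset V) (K : ℕ) (x : κ → V) : Prop :=
  ∃ β, Haven G U K β ∧ FreeH K β x

section

variable {κ κ' : Type} [Fintype κ] [Fintype κ'] {U U' : Finset V} {K K' : ℕ}
  {β : Finset V → Finset V} {x : κ → V}

theorem FreeH.comp (h : FreeH K β x) {φ : κ' → κ} (hφ : Function.Injective φ) (hK : K' ≤ K) :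
    FreeH K' β (x ∘ φ) := fun Z hZ =>
  le_trans (card_le_card_of_injOn φ (fun i hi => by simpa using hi) hφ.injOn) (h Z (by omega))

theorem Fr.comp (h : Fr G U K x) {φ : κ' → κ} (hφ : Function.Injective φ) (hK : K' ≤ K) :
    Fr G U K' (x ∘ φ) := by
  obtain ⟨β, h1, h2⟩ := h
  exact ⟨β, h1.le hK, h2.comp hφ hK⟩

theorem FreeH.exists_mem (h : FreeH K β x) {Z : Finset V} (hZ : Z.card < K) {s : Finset κ}
    (hs : Z.card < s.card) : ∃ i ∈ s, x i ∈ β Z := by
  obtain ⟨i, h1, h2⟩ := exists_not_mem_of_card_lt ((h Z hZ).trans_lt hs)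
  exact ⟨i, h1, by simpa using h2⟩

theorem FreeH.mem_empty (h : FreeH K β x) (hK : 0 < K) (i : κ) : x i ∈ β ∅ := by
  obtain ⟨j, h1, h2⟩ := h.exists_mem (Z := ∅) (by simpa using hK) (s := {i}) (by simp)
  exact mem_singleton.1 h1 ▸ h2

theorem FreeH.inj (h : FreeH K β x) (hβ : Haven G U K β) (hK : 1 < K) : Function.Injective x := by
  intro i j hij
  by_contra hne
  obtain ⟨k, h1, h2⟩ := h.exists_mem (Z := {x i}) (by simpa using hK) (s := {i, j})
    (by rw [card_pair hne]; simp)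
  refine hβ.not_mem (by simpa using hK) h2 ?_
  rcases mem_insert.1 h1 with rfl | h1
  · simp
  · rw [mem_singleton.1 h1, hij]; simp

theorem Fr.mem (h : Fr G U K x) (hK : 0 < K) (i : κ) : x i ∈ U := by
  obtain ⟨β, h1, h2⟩ := h
  exact h1.subU (by simpa using hK) (h2.mem_empty hK i)

theorem Fr.inj (h : Fr G U K x) (hK : 1 < K) : Function.Injective x := by
  obtain ⟨β, h1, h2⟩ := h
  exact h2.inj h1 hK

theorem haven_congr {G' : SimpleGraph V} (h : Haven G U K β)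
    (hG : ∀ u ∈ U, ∀ v ∈ U, (G.Adj u v ↔ G'.Adj u v)) : Haven G' U K β :=
  ⟨fun Z hZ => (h.conn Z hZ).mono' fun u v huv hu hv =>
      (hG u (h.subU hZ hu) v (h.subU hZ hv)).1 huv,
    h.sub, fun Z hZ u hu v hv hvZ huv => h.closed Z hZ u hu v hv hvZ
      ((hG u (h.subU hZ hu) v hv).2 huv), h.mono⟩

theorem Fr.mono_graph {G' : SimpleGraph V} (h : Fr G U K x) (hG : G ≤ G') (hU : U ⊆ U') :
    Fr G' U' K x := by
  obtain ⟨β, h1, h2⟩ := h
  obtain ⟨β', h3, h4⟩ := exists_haven (G := G') (U := U') (K := K) β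
    (fun Z hZ => ⟨(h1.conn Z hZ).mono' fun u v huv _ _ => hG huv,
      (h1.sub Z hZ).trans (sdiff_subset_sdiff hU subset_rfl)⟩)
    (fun Z Z' hZZ hZ' => by
      obtain ⟨v, hv⟩ := (h1.conn Z' hZ').1
      exact ⟨v, h1.mono Z Z' hZZ hZ' hv, hv⟩)
  refine ⟨β', h3, fun Z hZ => le_trans (card_le_card fun i hi => ?_) (h2 Z hZ)⟩
  simp only [mem_filter, mem_univ, true_and] at hi ⊢
  exact fun hc => hi (h4 Z hZ hc)

theorem bd_submod {F F' : Finset V} :
    (bd G U (F ∪ F')).card + (bd G U (F ∩ F')).card ≤ (bd G U F).card + (bd G U F').card := by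
  rw [← card_union_add_card_inter, ← card_union_add_card_inter (bd G U F)]
  refine add_le_add (card_le_card (union_subset bd_union_subset fun v hv => ?_))
    (card_le_card fun v hv => ?_)
  · obtain ⟨h1, u, hu, h2, h3⟩ := mem_bd.1 hv
    obtain ⟨h4, h5⟩ := mem_inter.1 h1
    by_cases h6 : u ∈ F
    · exact mem_union_right _ (mem_bd.2 ⟨h5, u, hu, fun h => h2 (mem_inter.2 ⟨h6, h⟩), h3⟩)
    · exact mem_union_left _ (mem_bd.2 ⟨h4, u, hu, h6, h3⟩)
  · obtain ⟨-, u, hu, h2, h3⟩ := mem_bd.1 (mem_inter.1 hv).1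
    obtain ⟨h4, h5⟩ := mem_inter.1 (bd_subset (mem_inter.1 hv).2)
    exact mem_inter.2 ⟨mem_bd.2 ⟨h4, u, hu, fun h => h2 (mem_union_left _ h), h3⟩,
      mem_bd.2 ⟨h5, u, hu, fun h => h2 (mem_union_right _ h), h3⟩⟩

/-- A small superset with least boundary, and among those a largest one. -/
theorem exists_maxtight [Fintype V] (h : Haven G U K β) {T : Finset V} (hT : T ⊆ U)
    (hK : T.card < K) : ∃ F, T ⊆ F ∧ Small G U K β F ∧ (bd G U F).card ≤ T.card ∧
      ∀ F', F ⊂ F' → Small G U K β F' → (bd G U F).card < (bd G U F').card := by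
  obtain ⟨F, ⟨h1, h2⟩, h3, h4⟩ := exists_lex_min (p := fun F => T ⊆ F ∧ Small G U K β F)
    (fun F => (bd G U F).card) (fun F => Fintype.card V - F.card) ⟨T, subset_rfl, h.tiny hT hK⟩
  refine ⟨F, h1, h2, (h3 T ⟨subset_rfl, h.tiny hT hK⟩).trans (card_le_card bd_subset),
    fun F' h5 h6 => ?_⟩
  by_contra hc
  have := h4 F' ⟨h1.trans h5.subset, h6⟩ (by omega)
  have := card_lt_card h5
  have := card_le_univ F'
  omega

theorem bd_sdiff_haven (h : Haven G U K β) {Z : Finset V} (hZ : Z.card < K) :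
    bd G U (U \ β Z) ⊆ Z := by
  intro v hv
  obtain ⟨h1, u, hu, h2, h3⟩ := mem_bd.1 hv
  by_contra hc
  refine (mem_sdiff.1 h1).2 (h.closed Z hZ u ?_ v (mem_sdiff.1 h1).1 hc h3.symm)
  by_contra h4
  exact h2 (mem_sdiff.2 ⟨hu, h4⟩)

/-- Augmentation: a set that meets every `β Z` contains a free family. -/
theorem augment [Fintype V] (h : Haven G U K β) {X : Finset V} (s : ℕ) (hK : 2 * s ≤ K)
    (hX : ∀ Z : Finset V, Z.card < s → ∃ v ∈ X, v ∈ β Z) :
    ∃ x : Fin s → V, (∀ i, x i ∈ X) ∧ FreeH K β x := by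
  have main : ∀ n ≤ s, ∃ I : Finset V, I ⊆ X ∧ I ⊆ U ∧ I.card = n ∧
      ∀ Z : Finset V, Z.card < K → (I \ β Z).card ≤ Z.card := by
    intro n
    induction n with
    | zero => exact fun _ => ⟨∅, by simp, by simp, rfl, by simp⟩
    | succ n ih =>
      intro hn
      obtain ⟨I, h1, h2, h3, h4⟩ := ih (by omega)
      obtain ⟨F, f1, f2, f3, f4⟩ := exists_maxtight h h2 (by omega)
      obtain ⟨v, v1, v2⟩ := hX (bd G U F) (by omega)
      have v3 : v ∉ F := disjoint_left.1 f2.2.2 v2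
      have v4 : v ∉ I := fun hc => v3 (f1 hc)
      refine ⟨insert v I, insert_subset v1 h1, insert_subset (h.subU f2.2.1 v2) h2,
        by rw [card_insert_of_notMem v4, h3], fun Z hZ => ?_⟩
      by_contra hc
      have h5 := h4 Z hZ
      have v5 : v ∉ β Z := fun hv => by
        rw [insert_sdiff_of_mem _ hv] at hc
        exact hc h5
      rw [insert_sdiff_of_notMem _ v5] at hc
      have h6 := card_insert_le v (I \ β Z)
      have h7 := card_le_card (sdiff_subset (s := I) (t := β Z))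
      have s1 := bd_sdiff_haven h hZ
      have s2 : Small G U K β (U \ β Z) := h.small sdiff_subset s1 hZ disjoint_sdiff
      have s3 := card_le_card s1
      have s4 := f4 (F ∪ (U \ β Z)) ⟨subset_union_left, fun hs => v3 (hs (mem_union_right _
        (mem_sdiff.2 ⟨h.subU f2.2.1 v2, v5⟩)))⟩ (f2.union s2 h (by omega))
      have s5 := bd_submod (G := G) (U := U) (F := F) (F' := U \ β Z)
      have s6 : Small G U K β (F ∩ (U \ β Z)) := h.small (inter_subset_left.trans f2.1)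
        (Z := bd G U F ∪ bd G U (F ∩ (U \ β Z))) subset_union_right
        ((card_union_le _ _).trans_lt (by omega))
        ((f2.disj h subset_union_left ((card_union_le _ _).trans_lt (by omega))).mono_right
          inter_subset_left)
      have s7 := h4 _ s6.2.1
      have s8 : I \ β Z ⊆ I \ β (bd G U (F ∩ (U \ β Z))) := fun u hu => mem_sdiff.2
        ⟨(mem_sdiff.1 hu).1, fun hc => disjoint_left.1 s6.2.2 hc (mem_inter.2
          ⟨f1 (mem_sdiff.1 hu).1, mem_sdiff.2 ⟨h2 (mem_sdiff.1 hu).1, (mem_sdiff.1 hu).2⟩⟩)⟩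
      have := card_le_card s8
      omega
  obtain ⟨I, h1, -, h3, h4⟩ := main s le_rfl
  let e := I.equivFinOfCardEq h3
  refine ⟨fun i => (e.symm i).1, fun i => h1 (e.symm i).2, fun Z hZ => le_trans
    (card_le_card_of_injOn (fun i => (e.symm i).1) (fun i hi => ?_) ?_) (h4 Z hZ)⟩
  · exact mem_coe.2 (mem_sdiff.2 ⟨(e.symm i).2, (mem_filter.1 hi).2⟩)
  · exact fun i _ j _ hij => e.symm.injective (Subtype.ext hij)

/-- Extension of a free family along disjoint connected sets. -/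
theorem extend (h : Haven G U K β) (hx : FreeH K β x) {P : κ → Finset V} {y : κ → V}
    (hP : ∀ i, Conn G (P i) ∧ P i ⊆ U' ∧ x i ∈ P i ∧ y i ∈ P i ∧ ∀ v ∈ P i, v ∈ U → v = x i)
    (hd : ∀ i j, i ≠ j → Disjoint (P i \ U) (P j \ U)) (hU : U ⊆ U') :
    ∃ β', Haven G U' K β' ∧ (∀ Z : Finset V, Z.card < K → β Z ⊆ β' Z) ∧ FreeH K β' y := by
  obtain ⟨β', h1, h2⟩ := h.enlarge hU
  refine ⟨β', h1, h2, fun Z hZ => ?_⟩
  have hZ1 : (Z ∩ U).card < K := (card_le_card inter_subset_left).trans_lt hZ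
  have s1 : β (Z ∩ U) ⊆ β' Z := by
    obtain ⟨v, hv⟩ := (h.conn Z hZ).1
    refine h1.absorb hZ (h.conn _ hZ1) ((h.subU hZ1).trans hU) ?_
      (h.mono _ _ inter_subset_left hZ hv) (h2 Z hZ hv)
    rw [disjoint_left]
    exact fun u hu huZ => h.not_mem hZ1 hu (mem_inter.2 ⟨huZ, h.subU hZ1 hu⟩)
  have s2 : (univ.filter fun i => y i ∉ β' Z) ⊆ (univ.filter fun i => x i ∉ β (Z ∩ U)) ∪
      univ.filter fun i => ¬ Disjoint (P i \ U) (Z \ U) := by
    intro i hi
    simp only [mem_filter, mem_union, mem_univ, true_and] at hi ⊢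
    by_contra hc
    push Not at hc
    obtain ⟨p1, p2, p3, p4, p5⟩ := hP i
    refine hi (h1.absorb hZ p1 p2 ?_ p3 (s1 hc.1) p4)
    rw [disjoint_left]
    intro v hv hvZ
    by_cases hvU : v ∈ U
    · exact h.not_mem hZ1 hc.1 (p5 v hv hvU ▸ mem_inter.2 ⟨hvZ, hvU⟩)
    · exact disjoint_left.1 hc.2 (mem_sdiff.2 ⟨hv, hvU⟩) (mem_sdiff.2 ⟨hvZ, hvU⟩)
  have s3 := (card_le_card s2).trans (card_union_le _ _)
  have s4 := hx _ hZ1
  have s5 := card_meet_le (L := fun i => P i \ U) univ (Z \ U) (fun i _ j _ hij => hd i j hij)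
  have s6 := card_sdiff_add_card_inter Z U
  omega

/-- An irrelevant vertex for all cuts between terminals. -/
theorem irrelevant [Fintype V] (h : Haven G U K β) {T : Finset V} (hT : T ⊆ U)
    (hK : 2 * T.card + 1 < K) : ∃ v ∈ U, v ∉ T ∧ ∀ Z : Finset V, Z.card ≤ T.card →
      ∃ Z' : Finset V, Z'.card ≤ Z.card ∧ ∀ x ∈ T, x ∉ Z' → ∀ y ∈ T, R G (U \ Z') x y →
        x ∈ U.erase v \ Z ∧ R G (U.erase v \ Z) x y := by
  obtain ⟨F, f1, f2, f3, f4⟩ := exists_maxtight h hT (by omega)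
  obtain ⟨v, hv⟩ := (h.conn _ f2.2.1).1
  have v1 : v ∉ F := disjoint_left.1 f2.2.2 hv
  have v2 := h.subU f2.2.1 hv
  refine ⟨v, v2, fun hc => v1 (f1 hc), fun Z hZ => ?_⟩
  set N := bd G U F with hN
  have hZ1 : (insert v (Z ∪ N)).card < K := by
    have := card_insert_le v (Z ∪ N)
    have := card_union_le Z N
    omega
  have hs1 : N ⊆ insert v (Z ∪ N) := subset_union_right.trans (subset_insert _ _)
  have d1 := f2.disj h hs1 hZ1
  obtain ⟨u0, hu0⟩ := (h.conn _ hZ1).1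
  set O := ((U \ F) ∪ N) \ insert v Z with hO
  have hb : β (insert v (Z ∪ N)) ⊆ O := fun u hu => mem_sdiff.2 ⟨mem_union_left _
    (mem_sdiff.2 ⟨h.subU hZ1 hu, disjoint_left.1 d1 hu⟩), fun hc => h.not_mem hZ1 hu
      (insert_subset_insert _ subset_union_left hc)⟩
  set B := comp G O u0 with hB
  have hb2 : β (insert v (Z ∪ N)) ⊆ B :=
    (h.conn _ hZ1).subset_comp hb hu0 (self_mem_comp (hb hu0))
  have hOs : O ⊆ U.erase v \ Z := fun u hu => by
    obtain ⟨h1, h2⟩ := mem_sdiff.1 hu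
    rw [mem_insert, not_or] at h2
    refine mem_sdiff.2 ⟨mem_erase.2 ⟨h2.1, ?_⟩, h2.2⟩
    rcases mem_union.1 h1 with h1 | h1
    · exact (mem_sdiff.1 h1).1
    · exact f2.1 (bd_subset h1)
  have b1 : bd G U (U \ (B \ F)) ⊆ insert v ((Z ∩ ((U \ F) ∪ N)) ∪ (N ∩ B)) := by
    intro w hw
    obtain ⟨h3, u, hu, h4, h5⟩ := mem_bd.1 hw
    have h6 : u ∈ B \ F := by
      by_contra hc
      exact h4 (mem_sdiff.2 ⟨hu, hc⟩)
    obtain ⟨h6, h7⟩ := mem_sdiff.1 h6
    obtain ⟨h8, h9⟩ := mem_sdiff.1 h3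
    have hwO : w ∈ (U \ F) ∪ N := by
      by_cases hwF : w ∈ F
      · exact mem_union_right _ (mem_bd.2 ⟨hwF, u, hu, h7, h5⟩)
      · exact mem_union_left _ (mem_sdiff.2 ⟨h8, hwF⟩)
    by_cases hz : w ∈ insert v Z
    · rcases mem_insert.1 hz with hz | hz
      · exact mem_insert.2 (Or.inl hz)
      · exact mem_insert_of_mem (mem_union_left _ (mem_inter.2 ⟨hz, hwO⟩))
    have hwB : w ∈ B := comp_closed h6 (mem_sdiff.2 ⟨hwO, hz⟩) h5.symm
    refine mem_insert_of_mem (mem_union_right _ (mem_inter.2 ⟨?_, hwB⟩))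
    rcases mem_union.1 hwO with h | h
    · exact absurd (mem_sdiff.2 ⟨hwB, (mem_sdiff.1 h).2⟩) h9
    · exact h
  have b2 : Small G U K β (U \ (B \ F)) := by
    refine h.small sdiff_subset (b1.trans (insert_subset_insert _
      (union_subset_union inter_subset_left inter_subset_left))) hZ1 ?_
    rw [disjoint_left]
    exact fun u hu hu' => (mem_sdiff.1 hu').2 (mem_sdiff.2 ⟨hb2 hu, disjoint_left.1 d1 hu⟩)
  have b3 := f4 (U \ (B \ F)) ⟨fun u hu => mem_sdiff.2 ⟨f2.1 hu, fun hc => (mem_sdiff.1 hc).2 hu⟩,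
    fun hs => v1 (hs (mem_sdiff.2 ⟨v2, fun hc => (mem_sdiff.1 (comp_subset (mem_sdiff.1 hc).1)).2
      (mem_insert_self _ _)⟩))⟩ b2
  have b4 := (card_le_card b1).trans ((card_insert_le _ _).trans
    (Nat.succ_le_succ (card_union_le _ _)))
  have b5 := card_sdiff_add_card_inter N B
  have b6 := card_sdiff_add_card_inter Z ((U \ F) ∪ N)
  refine ⟨(Z \ ((U \ F) ∪ N)) ∪ (N \ B), (card_union_le _ _).trans (by omega),
    fun x hx hxZ y hy hr => ?_⟩
  have k1 : ∀ z ∈ N, z ∉ (Z \ ((U \ F) ∪ N)) ∪ (N \ B) → z ∈ B := fun z h1 h2 => by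
    by_contra hc
    exact h2 (mem_union_right _ (mem_sdiff.2 ⟨h1, hc⟩))
  have k2 : ∀ z ∈ F, z ∉ (Z \ ((U \ F) ∪ N)) ∪ (N \ B) → z ∈ U.erase v \ Z := fun z h1 h2 => by
    by_cases h3 : z ∈ N
    · exact hOs (comp_subset (k1 z h3 h2))
    refine mem_sdiff.2 ⟨mem_erase.2 ⟨fun e => v1 (e ▸ h1), f2.1 h1⟩, fun hc => h2
      (mem_union_left _ (mem_sdiff.2 ⟨hc, fun h4 => ?_⟩))⟩
    rcases mem_union.1 h4 with h4 | h4
    · exact (mem_sdiff.1 h4).2 h1
    · exact h3 h4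
  refine ⟨k2 x (f1 hx) hxZ, ?_⟩
  have := hr.ind (P := fun z => (z ∈ F → R G (U.erase v \ Z) x z) ∧
      (z ∉ F → ∃ n ∈ B, R G (U.erase v \ Z) x n)) ⟨fun _ => R.refl, fun hc => absurd (f1 hx) hc⟩ (by
    intro z z' _ ih hzz hz hz'
    obtain ⟨z1, z2⟩ := mem_sdiff.1 hz
    obtain ⟨z3, z4⟩ := mem_sdiff.1 hz'
    by_cases c1 : z ∈ F
    · exact ⟨fun c2 => (ih.1 c1).tail hzz (k2 z c1 z2) (k2 z' c2 z4),
        fun c2 => ⟨z, k1 z (mem_bd.2 ⟨c1, z', z3, c2, hzz⟩) z2, ih.1 c1⟩⟩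
    · refine ⟨fun c2 => ?_, fun _ => ih.2 c1⟩
      obtain ⟨n, n1, n2⟩ := ih.2 c1
      exact n2.trans ((comp_conn (hb hu0)).r n1
        (k1 z' (mem_bd.2 ⟨c2, z, z1, c1, hzz.symm⟩) z4) (comp_subset.trans hOs)))
  exact this.1 (f1 hy)

end

end Pool.Agent.MP_35cb46_co

end MrgPart0

-- ======== part 1: formerly Pool.Agent.MP_35cb46_co.Sym
section MrgPart1

/-! Symmetric clusters: reduction of the tree-width, lanes, insertion of a pendant region. -/

namespace Pool.Agent.MP_35cb46_co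

open Finset Pool.Agent.MP_7be75d_co
open scoped Classical

variable {V : Type} {G : SimpleGraph V}

theorem Fr.of_conn {κ : Type} [Fintype κ] {U : Finset V} {K : ℕ} {x : κ → V}
    (hK : 2 * K ≤ Fintype.card κ + 1) (h : ∀ Z : Finset V, Z.card < K → ∃ B ⊆ U \ Z, Conn G B ∧
      (univ.filter fun i => x i ∉ B).card ≤ Z.card) : Fr G U K x := by
  have h1 : ∀ Z : Finset V, ∃ B : Finset V, Z.card < K → B ⊆ U \ Z ∧ Conn G B ∧
      (univ.filter fun i => x i ∉ B).card ≤ Z.card := fun Z => by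
    by_cases hZ : Z.card < K
    · obtain ⟨B, h2⟩ := h Z hZ
      exact ⟨B, fun _ => h2⟩
    · exact ⟨∅, fun h => absurd h hZ⟩
  choose γ hγ using h1
  obtain ⟨β, h2, h3⟩ := exists_haven (G := G) (U := U) (K := K) γ
    (fun Z hZ => ⟨(hγ Z hZ).2.1, (hγ Z hZ).1⟩) (fun Z Z' hZZ hZ' => by
      have hZ : Z.card < K := (card_le_card hZZ).trans_lt hZ'
      have := (hγ Z hZ).2.2
      have := (hγ Z' hZ').2.2
      obtain ⟨i, -, hi⟩ := exists_not_mem_of_card_lt (s := univ)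
        (t := (univ.filter fun i => x i ∉ γ Z) ∪ univ.filter fun i => x i ∉ γ Z')
        ((card_union_le _ _).trans_lt (by rw [card_univ]; omega))
      simp only [mem_union, mem_filter, mem_univ, true_and, not_or, not_not] at hi
      exact ⟨x i, hi⟩)
  refine ⟨β, h2, fun Z hZ => le_trans (card_le_card fun i hi => ?_) (hγ Z hZ).2.2⟩
  simp only [mem_filter, mem_univ, true_and] at hi ⊢
  exact fun hc => hi (h3 Z hZ hc)

/-- A symmetric cluster: both families of ends are jointly free. -/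
def SC {ι : Type} [Fintype ι] (G : SimpleGraph V) (U : Finset V) (a b : ι → V) : Prop :=
  Fr G U (Fintype.card ι) (Sum.elim a b)

section

variable {ι κ : Type} [Fintype ι] [Fintype κ] {U U' : Finset V} {a b : ι → V}

theorem SC.res (h : SC G U a b) {φ ψ : κ → ι} (hφ : Function.Injective φ)
    (hψ : Function.Injective ψ) : SC G U (a ∘ φ) (b ∘ ψ) := by
  have := Fr.comp h (φ := Sum.map φ ψ) (Sum.map_injective.2 ⟨hφ, hψ⟩)
    (Fintype.card_le_of_injective φ hφ)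
  rwa [Sum.elim_comp_map] at this

theorem SC.mono_graph {G' : SimpleGraph V} (h : SC G U a b) (hG : G ≤ G') (hU : U ⊆ U') :
    SC G' U' a b := Fr.mono_graph h hG hU

theorem SC.reduce [Fintype V] (h : SC G U a b) (hw : 0 < Fintype.card ι) :
    ∃ G' ≤ G, ∃ U' ⊆ U, SC G' U' a b ∧ Sep G' (5 * Fintype.card ι) := by
  obtain ⟨U', ⟨h1, h2⟩, hmin⟩ := exists_min_of (p := fun U' => U' ⊆ U ∧ SC G U' a b) card
    ⟨U, subset_rfl, h⟩
  have hno : ∀ X, ¬ Linked G U' X (5 * Fintype.card ι) := by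
    intro X hX
    obtain ⟨β0, h3, -⟩ := hX.haven
    have hc : (univ.image (Sum.elim a b)).card ≤ 2 * Fintype.card ι :=
      card_image_le.trans (by simp [two_mul])
    obtain ⟨v, v1, -, v3⟩ := irrelevant h3 (T := univ.image (Sum.elim a b))
      (image_subset_iff.2 fun i _ => Fr.mem h2 hw i) (by omega)
    obtain ⟨β, h4, h5⟩ := h2
    have h6 : SC G (U'.erase v) a b := by
      refine Fr.of_conn (by simp [two_mul]) fun Z hZ => ?_
      by_cases hT : Z.card ≤ (univ.image (Sum.elim a b)).card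
      · obtain ⟨Z', z1, z2⟩ := v3 Z hT
        have hZ' : Z'.card < Fintype.card ι := by omega
        obtain ⟨i, -, hi⟩ := h5.exists_mem hZ' (s := univ) (by simp; omega)
        have k := fun j (hj : Sum.elim a b j ∈ β Z') => z2 _ (mem_image_of_mem _ (mem_univ i))
          (h4.not_mem hZ' hi) _ (mem_image_of_mem _ (mem_univ j)) (h4.r hZ' hi hj)
        refine ⟨_, comp_subset, comp_conn (k i hi).1,
          le_trans (card_le_card fun j hj => ?_) ((h5 Z' hZ').trans z1)⟩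
        simp only [mem_filter, mem_univ, true_and] at hj ⊢
        exact fun hc => hj (mem_comp.2 ⟨(k j hc).2.mem (k j hc).1, (k j hc).2⟩)
      · exfalso
        obtain ⟨i, -, hi⟩ := h5.exists_mem (Z := univ.image (Sum.elim a b)) (by omega) (s := univ)
          (by simp; omega)
        exact h4.not_mem (by omega) hi (mem_image_of_mem _ (mem_univ i))
    have := hmin _ ⟨(erase_subset _ _).trans h1, h6⟩
    have := card_erase_lt_of_mem v1
    omega
  let G' : SimpleGraph V := ⟨fun u v => G.Adj u v ∧ u ∈ U' ∧ v ∈ U',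
    ⟨fun _ _ h => ⟨h.1.symm, h.2.2, h.2.1⟩⟩, ⟨fun _ h => h.1.ne rfl⟩⟩
  obtain ⟨β, h4, h5⟩ := h2
  refine ⟨G', fun _ _ h => h.1, U', h1, ⟨β, haven_congr h4 fun u hu v hv =>
    ⟨fun h => ⟨h, hu, hv⟩, fun h => h.1⟩, h5⟩, fun X hX => hno X fun Z hZ => ?_⟩
  obtain ⟨v, v1, v2⟩ := hX Z hZ
  have := hX.lt_card
  have v3 : v ∈ U' := by
    obtain ⟨y, hy, hyv⟩ := exists_mem_ne (s := X ∩ comp G' (univ \ Z) v) (by omega) v
    obtain ⟨z, -, -, hz⟩ := (mem_comp.1 (mem_inter.1 hy).2).2.exists_adj hyv.symm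
    exact hz.2.1
  have v4 : v ∈ U' \ Z := mem_sdiff.2 ⟨v3, (mem_sdiff.1 v1).2⟩
  refine ⟨v, v4, v2.trans_le (Nat.mul_le_mul_left _ (card_le_card
    (inter_subset_inter subset_rfl fun y hy => ?_)))⟩
  refine (mem_comp.1 hy).2.ind (P := fun y => y ∈ comp G (U' \ Z) v) (self_mem_comp v4) ?_
  intro y z _ ih hyz _ hz
  exact comp_closed ih (mem_sdiff.2 ⟨hyz.2.2, (mem_sdiff.1 hz).2⟩) hyz.1

/-- A linkage from prescribed points to a set that meets every `β Z`. -/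
theorem link_from [Fintype V] {K : ℕ} {β : Finset V → Finset V} (h : Haven G U K β) {p : κ → V}
    (hK : Fintype.card κ ≤ K) (hp : FreeH K β p) {τ : Type} {J : Finset τ} {y : τ → V}
    (hJ : ∀ Z : Finset V, Z.card < Fintype.card κ → ∃ j ∈ J, y j ∈ β Z) :
    ∃ (P : κ → Finset V) (e : κ → τ), (∀ k, P k ⊆ U ∧ Conn G (P k) ∧ p k ∈ P k ∧ e k ∈ J ∧
      y (e k) ∈ P k) ∧ ∀ k k', k ≠ k' → Disjoint (P k) (P k') := by
  obtain ⟨P, hP, hP'⟩ := menger_from (G := G) (U := U) (B := J.image y) p (fun Z hZ => by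
    obtain ⟨i, -, h1⟩ := hp.exists_mem (Z := Z) (by omega) (s := univ) hZ
    obtain ⟨j, h2, h3⟩ := hJ Z hZ
    exact h.joined (by omega) ⟨_, mem_image_of_mem _ (mem_univ i), h1⟩
      ⟨_, mem_image_of_mem _ h2, h3⟩)
  have he : ∀ k, ∃ j ∈ J, y j ∈ P k := fun k => by
    obtain ⟨v, h1, h2⟩ := hP.right k
    obtain ⟨j, h3, rfl⟩ := mem_image.1 h1
    exact ⟨j, h3, h2⟩
  choose e he1 he2 using he
  exact ⟨P, e, fun k => ⟨hP.sub k, hP.conn k, hP' k, he1 k, he2 k⟩, hP.disj⟩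

omit [Fintype κ] in
theorem inj_of_disj {τ : Type} {P : κ → Finset V} {e : κ → τ} {y : τ → V}
    (h1 : ∀ k, y (e k) ∈ P k) (h2 : ∀ k k', k ≠ k' → Disjoint (P k) (P k')) :
    Function.Injective e := fun k k' h => by
  by_contra hne
  exact disjoint_left.1 (h2 k k' hne) (h1 k) (h ▸ h1 k')

theorem SC.lanes [Fintype V] (h : SC G U a b) : ∃ (C : CD V ι) (e : ι → ι), IsCluster G C ∧
    C.reg = U ∧ C.a = a ∧ C.b = b ∘ e := by
  obtain ⟨β, h1, h2⟩ := h
  have ha : FreeH (Fintype.card ι) β a := h2.comp Sum.inl_injective le_rfl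
  have hb : FreeH (Fintype.card ι) β b := h2.comp Sum.inr_injective le_rfl
  obtain ⟨P, e, p1, p2⟩ := link_from h1 le_rfl ha (J := univ) (y := b)
    (fun Z hZ => hb.exists_mem hZ hZ)
  exact ⟨⟨U, β, P, a, b ∘ e⟩, e, ⟨h1, fun i => (p1 i).1, fun i => (p1 i).2.1, p2,
    fun i => (p1 i).2.2.1, fun i => (p1 i).2.2.2.2, ha⟩, rfl, rfl, rfl⟩

end

/-- A bundle: disjoint connected subsets of `W`, the `k`-th one containing `x k` and `y k`. -/
structure Bun {κ : Type} (G : SimpleGraph V) (W : Finset V) (P : κ → Finset V) (x y : κ → V) :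
    Prop where
  sub : ∀ k, P k ⊆ W
  conn : ∀ k, Conn G (P k)
  disj : ∀ k k', k ≠ k' → Disjoint (P k) (P k')
  left : ∀ k, x k ∈ P k
  right : ∀ k, y k ∈ P k

theorem Bun.res {κ κ' : Type} {W : Finset V} {P : κ → Finset V} {x y : κ → V}
    (h : Bun G W P x y) {φ : κ' → κ} (hφ : Function.Injective φ) :
    Bun G W (P ∘ φ) (x ∘ φ) (y ∘ φ) :=
  ⟨fun _ => h.sub _, fun _ => h.conn _, fun _ _ hk => h.disj _ _ fun e => hk (hφ e),
    fun _ => h.left _, fun _ => h.right _⟩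

theorem exists_avoid {κ : Type} {s t : Finset κ} {n : ℕ} (h : n + t.card ≤ s.card) :
    ∃ φ : Fin n → κ, Function.Injective φ ∧ ∀ i, φ i ∈ s ∧ φ i ∉ t := by
  obtain ⟨e⟩ := Function.Embedding.nonempty_of_card_le (α := Fin n) (β := (s \ t : Finset κ))
    (by rw [Fintype.card_coe, Fintype.card_fin]; have := le_card_sdiff t s; omega)
  exact ⟨fun i => (e i).1, fun i j hij => e.injective (Subtype.ext hij),
    fun i => mem_sdiff.1 (e i).2⟩

/-- Two bundles that start in the same family of terminals can be made disjoint. -/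
theorem two_bundles {κ : Type} {W : Finset V} {θ y : κ → V} {N : κ → Finset V} {I : Finset κ}
    (hN : Bun G W N θ y) {s : ℕ} (hs : 2 * s ≤ I.card) {M : Fin s → Finset V} {z : Fin s → V}
    {d : Fin s → κ} (hM : Bun G W M z (θ ∘ d)) (hd : ∀ j, d j ∈ I) :
    ∃ (M' : Fin s → Finset V) (d' φ : Fin s → κ), Bun G W M' z (θ ∘ d') ∧
      Function.Injective φ ∧ (∀ j, φ j ∈ I) ∧ ∀ j j', Disjoint (N (φ j)) (M' j') := by
  obtain ⟨Q, e, q1, q2, q3⟩ := reroute (G := G) (U := W) (L := N) (b := θ) (I := I)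
    (fun i _ => ⟨hN.sub i, hN.conn i, hN.left i⟩) (fun i _ j _ => hN.disj i j) (p := z) (P := M)
    (fun k => ⟨hM.sub k, hM.conn k, hM.left k, d k, hd k, hM.right k⟩) hM.disj
  obtain ⟨φ, f1, f2⟩ := exists_avoid (s := I) (t := univ.image e) (n := s) (by
    have := card_image_le (s := univ) (f := e)
    rw [card_univ, Fintype.card_fin] at this
    omega)
  refine ⟨Q, e, φ, ⟨fun k => (q1 k).1, fun k => (q1 k).2.1, q2, fun k => (q1 k).2.2.1,
    fun k => (q1 k).2.2.2.2⟩, f1, fun j => (f2 j).1, fun j j' => ?_⟩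
  by_contra hc
  obtain ⟨k, hk⟩ := q3 _ (f2 j).1 j' hc
  exact (f2 j).2 (mem_image.2 ⟨k, mem_univ _, hk⟩)

/-- Insertion of a family of terminals into one of two classes of lanes. -/
theorem insertion [Fintype V] {ι : Type} [Fintype ι] {O : Finset V} {L : ι → Finset V} {g f : ι → V}
    (hL : Bun G O L g f) (cl : ι → Bool) {s : ℕ} {θ : Fin (4 * s) → V} {N : Fin (4 * s) → Finset V}
    {e : Fin (4 * s) → ι} (hN : Bun G O N θ (f ∘ e)) :
    ∃ (c : Bool) (Φ : Finset ι) (N1 N2 : Fin s → Finset V) (d1 d2 : Fin s → Fin (4 * s))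
      (e1 e2 : Fin s → ι), Φ.card ≤ 4 * s ∧ Bun G O N1 (θ ∘ d1) (f ∘ e1) ∧
      Bun G O N2 (g ∘ e2) (θ ∘ d2) ∧ (∀ j, cl (e1 j) = c ∧ cl (e2 j) = c) ∧
      (∀ j j', Disjoint (N1 j) (N2 j')) ∧
      ∀ i ∉ Φ, ∀ j, Disjoint (L i) (N1 j) ∧ Disjoint (L i) (N2 j) := by
  obtain ⟨Q, e', q1, q2, q3⟩ := reroute (G := G) (U := O) (L := L) (b := f) (I := univ)
    (fun i _ => ⟨hL.sub i, hL.conn i, hL.right i⟩) (fun i _ j _ => hL.disj i j) (p := θ) (P := N)
    (fun k => ⟨hN.sub k, hN.conn k, hN.left k, e k, mem_univ _, hN.right k⟩) hN.disj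
  have hinj : Function.Injective e' := inj_of_disj (y := f) (fun k => (q1 k).2.2.2.2) q2
  obtain ⟨c, hc⟩ : ∃ c, 2 * s ≤ (univ.filter fun k => cl (e' k) = c).card := by
    by_contra hc
    push Not at hc
    have h1 := card_filter_add_card_filter_not (s := univ) (fun k => cl (e' k) = true)
    have h2 := hc true
    have h3 := hc false
    simp only [Bool.not_eq_true, card_univ, Fintype.card_fin] at h1
    omega
  set I := univ.filter fun k => cl (e' k) = c with hI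
  set W := univ.biUnion Q ∪ univ.biUnion fun k => L (e' k) with hW
  have w1 : ∀ k, Q k ⊆ W := fun k => (subset_biUnion_of_mem Q (mem_univ k)).trans subset_union_left
  have w2 : ∀ k, L (e' k) ⊆ W := fun k =>
    (subset_biUnion_of_mem (fun k => L (e' k)) (mem_univ k)).trans subset_union_right
  have w3 : W ⊆ O := union_subset (biUnion_subset.2 fun k _ => (q1 k).1)
    (biUnion_subset.2 fun k _ => hL.sub _)
  have w4 : ∀ i ∉ univ.image e', Disjoint (L i) W := fun i hi => by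
    rw [disjoint_union_right, disjoint_biUnion_right, disjoint_biUnion_right]
    refine ⟨fun k _ => ?_, fun k _ => hL.disj _ _ fun h => hi (h ▸ mem_image_of_mem _ (mem_univ k))⟩
    by_contra hc
    obtain ⟨k', hk'⟩ := q3 i (mem_univ _) k hc
    exact hi (hk' ▸ mem_image_of_mem _ (mem_univ k'))
  obtain ⟨M, hM⟩ := menger W s _ G (I.image (g ∘ e')) (I.image θ) le_rfl (fun Z hZ => by
    have c1 := card_meet_le (L := Q) univ Z fun i _ j _ => q2 i j
    have c2 := card_meet_le (L := fun k => L (e' k)) univ Z fun i _ j _ h =>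
      hL.disj _ _ fun e => h (hinj e)
    obtain ⟨k, k1, k2⟩ := exists_not_mem_of_card_lt (s := I)
      (t := (univ.filter fun k => ¬ Disjoint (Q k) Z) ∪ univ.filter fun k => ¬ Disjoint (L (e' k)) Z)
      ((card_union_le _ _).trans_lt (by omega))
    simp only [mem_union, mem_filter, mem_univ, true_and, not_or, not_not] at k2
    have c3 := (hL.conn (e' k)).union (q1 k).2.1 (hL.right _) (q1 k).2.2.2.2
    have c4 : L (e' k) ∪ Q k ⊆ W \ Z :=
      union_subset (subset_sdiff.2 ⟨w2 k, k2.2⟩) (subset_sdiff.2 ⟨w1 k, k2.1⟩)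
    exact ⟨_, mem_image_of_mem _ k1, _, mem_image_of_mem _ k1, c4 (mem_union_left _ (hL.left _)),
      c3.r (mem_union_left _ (hL.left _)) (mem_union_right _ (q1 k).2.2.1) c4⟩)
  have ha : ∀ j, ∃ k ∈ I, g (e' k) ∈ M j := fun j => by
    obtain ⟨v, h1, h2⟩ := hM.left j
    obtain ⟨k, h3, rfl⟩ := mem_image.1 h1
    exact ⟨k, h3, h2⟩
  have hd : ∀ j, ∃ k ∈ I, θ k ∈ M j := fun j => by
    obtain ⟨v, h1, h2⟩ := hM.right j
    obtain ⟨k, h3, rfl⟩ := mem_image.1 h1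
    exact ⟨k, h3, h2⟩
  choose a a1 a2 using ha
  choose d d1 d2 using hd
  have hQ : Bun G W Q θ (f ∘ e') :=
    ⟨w1, fun k => (q1 k).2.1, q2, fun k => (q1 k).2.2.1, fun k => (q1 k).2.2.2.2⟩
  obtain ⟨M', d', φ, m1, m2, m3, m4⟩ := two_bundles hQ hc (M := M) (z := g ∘ e' ∘ a) (d := d)
    ⟨hM.sub, hM.conn, hM.disj, a2, d2⟩ d1
  have hQ' := hQ.res m2
  refine ⟨c, univ.image e', Q ∘ φ, M', φ, d', e' ∘ φ, e' ∘ a, card_image_le.trans (by simp),
    ⟨fun k => (hQ'.sub k).trans w3, hQ'.conn, hQ'.disj, hQ'.left, hQ'.right⟩,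
    ⟨fun k => (m1.sub k).trans w3, m1.conn, m1.disj, m1.left, m1.right⟩,
    fun j => ⟨(mem_filter.1 (m3 j)).2, (mem_filter.1 (a1 j)).2⟩, m4,
    fun i hi j => ⟨(w4 i hi).mono_right (w1 _), (w4 i hi).mono_right (m1.sub j)⟩⟩

end Pool.Agent.MP_35cb46_co

end MrgPart1

-- ======== part 2: formerly Pool.Agent.MP_35cb46_co.Double
section MrgPart2

/-! Splitting a symmetric cluster into two consecutive ones with a constant loss. -/

namespace Pool.Agent.MP_35cb46_co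

open Finset Pool.Agent.MP_7be75d_co
open scoped Classical

variable {V : Type} {G : SimpleGraph V}

theorem attach {κ κ' : Type} [Fintype κ] [Fintype κ'] {O H : Finset V} {K K' : ℕ} {t θ : κ → V}
    (h : Fr G H K t) (hK : K' ≤ K) (h0 : 0 < K') (hθ : ∀ k, G.Adj (t k) (θ k)) (hO : Disjoint O H)
    {Q : κ' → Finset V} {φ : κ' → κ} {y : κ' → V} (hφ : Function.Injective φ)
    (hQ : ∀ k, Q k ⊆ O ∧ ((Conn G (Q k) ∧ θ (φ k) ∈ Q k ∧ y k ∈ Q k) ∨ (Q k = ∅ ∧ y k = t (φ k))))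
    (hd : ∀ k k', k ≠ k' → Disjoint (Q k) (Q k')) : Fr G (H ∪ univ.biUnion Q) K' y := by
  have hm := fun k => h.mem (by omega) k
  obtain ⟨β, h1, h2⟩ := h.comp hφ hK
  obtain ⟨β', h3, -, h4⟩ := extend (U' := H ∪ univ.biUnion Q) h1 h2
    (P := fun k => insert (t (φ k)) (Q k)) (y := y) (fun k => by
      refine ⟨?_, insert_subset (mem_union_left _ (hm _))
        ((subset_biUnion_of_mem Q (mem_univ k)).trans subset_union_right), mem_insert_self _ _,
        ?_, fun v hv hvH => (mem_insert.1 hv).resolve_right fun hc =>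
          disjoint_left.1 hO ((hQ k).1 hc) hvH⟩
      · rcases (hQ k).2 with ⟨q1, q2, -⟩ | ⟨q1, -⟩
        · exact q1.insert q2 (hθ _).symm
        · rw [q1]; exact Conn.singleton _
      · rcases (hQ k).2 with ⟨-, -, q3⟩ | ⟨-, q2⟩
        · exact mem_insert_of_mem q3
        · rw [q2]; exact mem_insert_self _ _)
    (fun k k' hk => by
      rw [insert_sdiff_of_mem _ (hm _), insert_sdiff_of_mem _ (hm _)]
      exact (hd k k' hk).mono sdiff_subset sdiff_subset) subset_union_left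
  exact ⟨β', h3, h4⟩

theorem assemble {κ κ' : Type} [Fintype κ] [Fintype κ'] {O Ha Hb : Finset V} {Ka Kb s : ℕ}
    {ta θa : κ → V} {tb θb : κ' → V} (ha : Fr G Ha Ka ta) (hb : Fr G Hb Kb tb) (hs : 0 < s)
    (hKa : s ≤ Ka) (hKb : s ≤ Kb) (aa : ∀ k, G.Adj (ta k) (θa k)) (ab : ∀ k, G.Adj (tb k) (θb k))
    (d1 : Disjoint O Ha) (d2 : Disjoint O Hb) (d3 : Disjoint Ha Hb)
    {α μ ω : Fin s → Finset V} {x y : Fin s → V} {i1 i2 : Fin s → κ} {j1 j2 : Fin s → κ'}
    (hα : Bun G O α x (θa ∘ i1)) (hμ : Bun G O μ (θa ∘ i2) (θb ∘ j1))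
    (hω : Bun G O ω (θb ∘ j2) y) (e1 : ∀ j j', Disjoint (α j) (μ j'))
    (e2 : ∀ j j', Disjoint (α j) (ω j')) (e3 : ∀ j j', Disjoint (μ j) (ω j')) :
    ∃ (U0 U1 : Finset V) (b0 a1 : Fin s → V), U0 ⊆ O ∪ Ha ∧ U1 ⊆ O ∪ Hb ∧ Disjoint U0 U1 ∧
      SC G U0 x b0 ∧ SC G U1 a1 y ∧ ∀ j, G.Adj (b0 j) (a1 j) := by
  have p1 : ∀ k k', k ≠ k' → Disjoint (Sum.elim α μ k) (Sum.elim α μ k') := by
    rintro (k | k) (k' | k') h
    · exact hα.disj k k' (by simpa using h)
    · exact e1 k k'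
    · exact (e1 k' k).symm
    · exact hμ.disj k k' (by simpa using h)
  have p2 : ∀ k k', k ≠ k' → Disjoint (Sum.elim μ ω k) (Sum.elim μ ω k') := by
    rintro (k | k) (k' | k') h
    · exact hμ.disj k k' (by simpa using h)
    · exact e3 k k'
    · exact (e3 k' k).symm
    · exact hω.disj k k' (by simpa using h)
  have s0 : ∀ k, Sum.elim α μ k ⊆ O := by
    rintro (k | k)
    · exact hα.sub k
    · exact hμ.sub k
  have s1 : ∀ k, Sum.elim (fun _ : Fin s => (∅ : Finset V)) ω k ⊆ O := by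
    rintro (k | k)
    · exact empty_subset _
    · exact hω.sub k
  refine ⟨Ha ∪ univ.biUnion (Sum.elim α μ), Hb ∪ univ.biUnion (Sum.elim (fun _ : Fin s => ∅) ω),
    θb ∘ j1, tb ∘ j1, union_subset subset_union_right
      ((biUnion_subset.2 fun k _ => s0 k).trans subset_union_left),
    union_subset subset_union_right ((biUnion_subset.2 fun k _ => s1 k).trans subset_union_left),
    ?_, attach ha (by simpa using hKa) (by simpa using hs) aa d1 (φ := Sum.elim i1 i2)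
      (inj_of_disj (y := θa) (P := Sum.elim α μ) ?_ p1) (fun k => ⟨s0 k, Or.inl ?_⟩) p1,
    attach hb (by simpa using hKb) (by simpa using hs) ab d2 (φ := Sum.elim j1 j2)
      (inj_of_disj (y := θb) (P := Sum.elim μ ω) ?_ p2) (fun k => ⟨s1 k, ?_⟩) ?_,
    fun j => (ab _).symm⟩
  · rw [disjoint_union_left, disjoint_union_right, disjoint_union_right]
    refine ⟨⟨d3, (d1.mono_left (biUnion_subset.2 fun k _ => s1 k)).symm⟩,
      d2.mono_left (biUnion_subset.2 fun k _ => s0 k), ?_⟩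
    rw [disjoint_biUnion_left]
    rintro (k | k) - <;> rw [disjoint_biUnion_right] <;> rintro (k' | k') -
    · exact disjoint_empty_right _
    · exact e2 k k'
    · exact disjoint_empty_right _
    · exact e3 k k'
  · rintro (k | k)
    · exact hα.right k
    · exact hμ.left k
  · rcases k with k | k
    · exact ⟨hα.conn k, hα.right k, hα.left k⟩
    · exact ⟨hμ.conn k, hμ.left k, hμ.right k⟩
  · rintro (k | k)
    · exact hμ.right k
    · exact hω.left k
  · rcases k with k | k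
    · exact Or.inr ⟨rfl, rfl⟩
    · exact Or.inl ⟨hω.conn k, hω.left k, hω.right k⟩
  · rintro (k | k) (k' | k') h
    · exact disjoint_empty_left _
    · exact disjoint_empty_left _
    · exact disjoint_empty_right _
    · exact hω.disj k k' (by simpa using h)

/-- Two pendant regions at a hub give two consecutive symmetric clusters. -/
theorem hub [Fintype V] {ι τ : Type} [Fintype ι] [Fintype τ] {O H0 H1 : Finset V} {K K0 K1 s : ℕ}
    {β : Finset V → Finset V} {a b : ι → V} {θ : τ → V} (h : Haven G O K β) (hθ : FreeH K β θ)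
    (hs : 0 < s) (hK : 2 * (5 * s) ≤ K)
    (ha : ∀ Z : Finset V, Z.card < 2 * (5 * s) → (∃ i, a i ∈ β Z) ∧ ∃ i, b i ∈ β Z)
    {t0 : Fin (2 * (5 * s)) → V} {t1 : Fin (4 * s) → V} {j0 : Fin (2 * (5 * s)) → τ}
    {j1 : Fin (4 * s) → τ} (i0 : Function.Injective j0) (i1 : Function.Injective j1)
    (h0 : Fr G H0 K0 t0) (h1 : Fr G H1 K1 t1) (k0 : s ≤ K0) (k1 : s ≤ K1)
    (a0 : ∀ k, G.Adj (t0 k) (θ (j0 k))) (a1 : ∀ k, G.Adj (t1 k) (θ (j1 k)))
    (d0 : Disjoint O H0) (d1 : Disjoint O H1) (d2 : Disjoint H0 H1) :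
    ∃ (U0 U1 : Finset V) (φ ψ : Fin s → ι) (b0 a1 : Fin s → V), U0 ⊆ O ∪ H0 ∪ H1 ∧
      U1 ⊆ O ∪ H0 ∪ H1 ∧ Disjoint U0 U1 ∧ SC G U0 (a ∘ φ) b0 ∧ SC G U1 a1 (b ∘ ψ) ∧
      ∀ j, G.Adj (b0 j) (a1 j) := by
  have f0 : FreeH K β (θ ∘ j0) := hθ.comp i0 le_rfl
  have ic : Function.Injective (Fin.castLE (show 5 * s ≤ 2 * (5 * s) by omega)) :=
    Fin.castLE_injective _
  obtain ⟨N, eB, n1, n2⟩ := link_from h (by simpa using hK) f0 (J := univ) (y := b) (fun Z hZ => by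
    obtain ⟨i, hi⟩ := (ha Z (by simpa using hZ)).2
    exact ⟨i, mem_univ _, hi⟩)
  obtain ⟨M, eA, m1, m2⟩ := link_from h (by simp; omega) (f0.comp ic le_rfl) (J := univ) (y := a)
    (fun Z hZ => by
      obtain ⟨i, hi⟩ := (ha Z (by simp at hZ; omega)).1
      exact ⟨i, mem_univ _, hi⟩)
  have hN : Bun G O N (θ ∘ j0) (b ∘ eB) :=
    ⟨fun k => (n1 k).1, fun k => (n1 k).2.1, n2, fun k => (n1 k).2.2.1, fun k => (n1 k).2.2.2.2⟩
  obtain ⟨M', d', φ, p1, p2, -, p4⟩ := two_bundles hN (I := univ) (s := 5 * s) (by simp) (M := M)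
    (z := a ∘ eA) (d := Fin.castLE (show 5 * s ≤ 2 * (5 * s) by omega))
    ⟨fun k => (m1 k).1, fun k => (m1 k).2.1, m2, fun k => (m1 k).2.2.2.2, fun k => (m1 k).2.2.1⟩
    (fun _ => mem_univ _)
  have hN' := hN.res p2
  have hL : Bun G O (Sum.elim M' (N ∘ φ)) (Sum.elim (a ∘ eA) ((θ ∘ j0) ∘ φ))
      (Sum.elim ((θ ∘ j0) ∘ d') ((b ∘ eB) ∘ φ)) := by
    refine ⟨?_, ?_, ?_, ?_, ?_⟩
    · rintro (k | k)
      · exact p1.sub k
      · exact hN'.sub k
    · rintro (k | k)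
      · exact p1.conn k
      · exact hN'.conn k
    · rintro (k | k) (k' | k') h
      · exact p1.disj k k' (by simpa using h)
      · exact (p4 k' k).symm
      · exact p4 k k'
      · exact hN'.disj k k' (by simpa using h)
    · rintro (k | k)
      · exact p1.left k
      · exact hN'.left k
    · rintro (k | k)
      · exact p1.right k
      · exact hN'.right k
  have id' : Function.Injective d' := inj_of_disj (y := θ ∘ j0) p1.right p1.disj
  obtain ⟨N', e, r1, r2⟩ := link_from h (by simp; omega) (hθ.comp i1 le_rfl) (J := univ)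
    (y := Sum.elim ((θ ∘ j0) ∘ d') ((b ∘ eB) ∘ φ)) (fun Z hZ => by
      rw [Fintype.card_fin] at hZ
      obtain ⟨i, -, hi⟩ := (f0.comp id' le_rfl).exists_mem (Z := Z) (by omega) (s := univ)
        (by simp; omega)
      exact ⟨Sum.inl i, mem_univ _, hi⟩)
  obtain ⟨c, Φ, N1, N2, d1', d2', e1, e2, s1, s2, s3, s4, s5, s6⟩ := insertion hL Sum.isLeft
    (θ := θ ∘ j1) (N := N') (e := e)
    ⟨fun k => (r1 k).1, fun k => (r1 k).2.1, r2, fun k => (r1 k).2.2.1, fun k => (r1 k).2.2.2.2⟩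
  have free : ∀ ε : Fin (5 * s) → Fin (5 * s) ⊕ Fin (5 * s), Function.Injective ε →
      ∃ ψ : Fin s → Fin (5 * s), Function.Injective ψ ∧ ∀ j, ε (ψ j) ∉ Φ := fun ε hε => by
    obtain ⟨ψ, h2, h3⟩ := exists_avoid (s := univ) (t := univ.filter fun k => ε k ∈ Φ) (n := s) (by
      have : (univ.filter fun k => ε k ∈ Φ).card ≤ Φ.card :=
        card_le_card_of_injOn ε (fun k hk => by simpa using hk) hε.injOn
      simp only [card_univ, Fintype.card_fin]
      omega)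
    exact ⟨ψ, h2, fun j => by simpa using (h3 j).2⟩
  cases c with
  | true =>
    choose u1 hu1 using fun j => Sum.isLeft_iff.1 (s4 j).1
    choose u2 hu2 using fun j => Sum.isLeft_iff.1 (s4 j).2
    obtain rfl : e1 = Sum.inl ∘ u1 := funext hu1
    obtain rfl : e2 = Sum.inl ∘ u2 := funext hu2
    obtain ⟨ψ, h2, h3⟩ := free _ Sum.inr_injective
    obtain ⟨U0, U1, b0, a1', t1', t2, t3, t4⟩ := assemble (θa := θ ∘ j1) (θb := θ ∘ j0) h1 h0 hs
      k1 k0 a1 a0 d1 d0 d2.symm (x := a ∘ eA ∘ u2) (y := b ∘ eB ∘ φ ∘ ψ) (i1 := d2') (i2 := d1')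
      (j1 := d' ∘ u1) (j2 := φ ∘ ψ) s3 s2 (hN'.res h2) (fun j j' => (s5 j' j).symm)
      (fun j j' => (s6 _ (h3 j') j).2.symm) (fun j j' => (s6 _ (h3 j') j).1.symm)
    exact ⟨U0, U1, eA ∘ u2, eB ∘ φ ∘ ψ, b0, a1', t1'.trans (union_subset_union subset_union_left
      subset_rfl), t2.trans subset_union_left, t3, t4⟩
  | false =>
    choose u1 hu1 using fun j => Sum.isRight_iff.1 (Sum.isLeft_eq_false.1 (s4 j).1)
    choose u2 hu2 using fun j => Sum.isRight_iff.1 (Sum.isLeft_eq_false.1 (s4 j).2)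
    obtain rfl : e1 = Sum.inr ∘ u1 := funext hu1
    obtain rfl : e2 = Sum.inr ∘ u2 := funext hu2
    obtain ⟨ψ, h2, h3⟩ := free _ Sum.inl_injective
    obtain ⟨U0, U1, b0, a1', t1', t2, t3, t4⟩ := assemble (θa := θ ∘ j0) (θb := θ ∘ j1) h0 h1 hs
      k0 k1 a0 a1 d0 d1 d2 (x := a ∘ eA ∘ ψ) (y := b ∘ eB ∘ φ ∘ u1) (i1 := d' ∘ ψ) (i2 := φ ∘ u2)
      (j1 := d2') (j2 := d1') (p1.res h2) s3 s2 (fun j j' => (s6 _ (h3 j) j').2)
      (fun j j' => (s6 _ (h3 j) j').1) (fun j j' => (s5 j' j).symm)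
    exact ⟨U0, U1, eA ∘ ψ, eB ∘ φ ∘ u1, b0, a1', t1'.trans subset_union_left,
      t2.trans (union_subset_union subset_union_left subset_rfl), t3, t4⟩

theorem two_split : ∃ c : ℕ, 0 < c ∧ ∀ {V ι : Type} [Fintype V] [Fintype ι] {G : SimpleGraph V}
    {U : Finset V} {a b : ι → V} {s : ℕ}, SC G U a b → 0 < s → c * s ≤ Fintype.card ι →
    ∃ (U0 U1 : Finset V) (φ ψ : Fin s → ι) (b0 a1 : Fin s → V), U0 ⊆ U ∧ U1 ⊆ U ∧
      Disjoint U0 U1 ∧ SC G U0 (a ∘ φ) b0 ∧ SC G U1 a1 (b ∘ ψ) ∧ ∀ j, G.Adj (b0 j) (a1 j) := by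
  obtain ⟨m5, hm5⟩ : ∃ m, mu 5 = m := ⟨_, rfl⟩
  obtain ⟨lam, hlam⟩ := exists_pos 3 (5 * m5)
  obtain ⟨c0, hc0⟩ : ∃ c0, c0 = (m5 + 2) * ((lam + 1) * 13) := ⟨_, rfl⟩
  obtain ⟨c1, hc1⟩ : ∃ c1, c1 = (12 * (5 * c0) + 13) ^ 2 * 48 := ⟨_, rfl⟩
  have m1 : 0 < m5 := hm5 ▸ mu_pos 5
  have hc2 : 48 ≤ c1 := by rw [hc1]; exact Nat.le_mul_of_pos_left _ (by positivity)
  have hc3 : 0 < c0 := by rw [hc0]; positivity
  refine ⟨c0 * c1, by positivity, fun {V ι} _ _ {G0 U0 a0 b0 s} h0 hs hw => ?_⟩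
  obtain ⟨η⟩ := Function.Embedding.nonempty_of_card_le (α := Fin (c0 * c1 * s)) (β := ι)
    (by simpa using hw)
  obtain ⟨G, hG, U, hU, h, hσ⟩ := (h0.res η.injective η.injective).reduce
    (by rw [Fintype.card_fin]; exact Nat.mul_pos (Nat.mul_pos hc3 (by omega)) hs)
  suffices H : ∃ (U0 U1 : Finset V) (φ ψ : Fin s → Fin (c0 * c1 * s)) (b1 a1 : Fin s → V),
      U0 ⊆ U ∧ U1 ⊆ U ∧ Disjoint U0 U1 ∧ SC G U0 ((a0 ∘ η) ∘ φ) b1 ∧ SC G U1 a1 ((b0 ∘ η) ∘ ψ) ∧
      ∀ j, G.Adj (b1 j) (a1 j) by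
    obtain ⟨U0, U1, φ, ψ, b1, a1, h1, h2, h3, h4, h5, h6⟩ := H
    exact ⟨U0, U1, η ∘ φ, η ∘ ψ, b1, a1, h1.trans hU, h2.trans hU, h3, h4.mono_graph hG subset_rfl,
      h5.mono_graph hG subset_rfl, fun j => hG (h6 j)⟩
  generalize a0 ∘ η = a at h ⊢
  generalize b0 ∘ η = b at h ⊢
  obtain ⟨β, hβ, hab⟩ := h
  obtain ⟨y, hy⟩ : ∃ y, y = c1 * s := ⟨_, rfl⟩
  have hy1 : 48 * s ≤ y := hy ▸ Nat.mul_le_mul_right _ hc2
  have hw1 : Fintype.card (Fin (c0 * c1 * s)) = c0 * y := by rw [hy]; simp [mul_assoc]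
  rw [hw1] at hβ hab hσ
  have hw2 : (m5 + 2) * (13 * y) ≤ c0 * y := by rw [hc0]; nlinarith [Nat.zero_le (lam * y)]
  obtain ⟨F, K1, β1, t1, b1, h1, x1, k1⟩ := descend hβ hσ le_rfl (by rw [hm5]; nlinarith)
  rw [hm5] at k1
  clear hm5
  have maj : ∀ {X B : Finset V}, X.card < 2 * (X ∩ B).card → ∃ x ∈ X, x ∈ B := fun h => by
    obtain ⟨x, hx⟩ := card_pos.1 (Nat.pos_of_mul_pos_left (Nat.zero_lt_of_lt h))
    exact ⟨x, (mem_inter.1 hx).1, (mem_inter.1 hx).2⟩
  obtain ⟨C, e, hC, hCs, he, he', heb⟩ := hlam (ι := Fin (12 * y)) h1 hσ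
    (by rw [mul_assoc]; exact Nat.mul_le_mul_left _ k1) (fun Z hZ => maj (x1 Z hZ)) (by
      rw [Fintype.card_fin]
      refine Nat.le_of_mul_le_mul_left (le_trans ?_ k1) m1
      rw [hc0]
      have : lam * (12 * y + 1) ≤ (lam + 1) * 13 * y := by nlinarith
      calc m5 * (lam * (12 * y + 1)) ≤ (m5 + 2) * ((lam + 1) * 13 * y) :=
            Nat.mul_le_mul (by omega) this
        _ = _ := by ring)
  have heb := heb 2 rfl
  have c0' := hC.cl 0 (by omega)
  have c1' := hC.cl 1 (by omega)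
  have c2' := hC.cl 2 (by omega)
  have cw : Fintype.card (Fin (12 * y)) = 12 * y := Fintype.card_fin _
  -- the second pendant region
  obtain ⟨H1, γ1, ⟨g1, g2, g3⟩, g4⟩ := near_case (ρ := 5 * c0) (b := y) (t := 16 * s) (K := 8 * s)
    c1' hσ (le_of_eq (by ring)) (by omega) (by rw [hy, hc1]; exact le_of_eq (by ring))
    (by simp) (by omega)
  obtain ⟨u1, v1, v2⟩ := augment g2 (X := univ.image (C 1).b) (4 * s) (by omega) (fun Z hZ => by
    obtain ⟨i, hi⟩ := card_pos.1 (lt_of_lt_of_le (by omega) (g3 Z (by omega)))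
    exact ⟨_, mem_image_of_mem _ (mem_univ i), (mem_filter.1 hi).2⟩)
  choose j1 _ hj1 using fun k => mem_image.1 (v1 k)
  have i1 : Function.Injective j1 := fun k k' hk =>
    v2.inj g2 (by omega) (by rw [← hj1, ← hj1, hk])
  -- the first pendant region
  obtain ⟨γ0, g5, g6⟩ := c0'.hv.enlarge
    (U' := (C 0).reg ∪ (foot (C 1) H1)ᶜ.biUnion (C 1).lane) subset_union_left
  obtain ⟨u0, v3, v4⟩ := augment g5 (X := (foot (C 1) H1)ᶜ.image (C 1).b) (2 * (5 * s))
    (by omega) (fun Z hZ => by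
      have e1 := c0'.two (Z := Z) (by omega)
      have e2 := card_meet_le (L := (C 1).lane) univ Z fun i _ j _ => c1'.disj i j
      obtain ⟨i, h2, h3⟩ := exists_not_mem_of_card_lt (s := (foot (C 1) H1)ᶜ)
        (t := (univ.filter fun i => ¬ (C 0).lane i ⊆ (C 0).β Z) ∪
          univ.filter fun i => ¬ Disjoint ((C 1).lane i) Z)
        ((card_union_le _ _).trans_lt (by rw [card_compl]; omega))
      simp only [mem_union, mem_filter, mem_univ, true_and, not_or, not_not] at h3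
      have e3 : (C 1).lane i ⊆ (C 0).reg ∪ (foot (C 1) H1)ᶜ.biUnion (C 1).lane :=
        (subset_biUnion_of_mem _ h2).trans subset_union_right
      exact ⟨_, mem_image_of_mem _ h2, g5.absorb (by omega) (c1'.conn i) e3 h3.2 (c1'.ma i)
        (g5.closed Z (by omega) _ (g6 Z (by omega) (h3.1 (c0'.mb i))) _ (e3 (c1'.ma i))
          (disjoint_left.1 h3.2 (c1'.ma i)) (hC.adj 0 (by omega) i)) (c1'.mb i)⟩)
  choose j0 _ hj0 using fun k => mem_image.1 (v3 k)
  have i0 : Function.Injective j0 := fun k k' hk =>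
    v4.inj g5 (by omega) (by rw [← hj0, ← hj0, hk])
  -- the hub
  have hT : univ.image e ⊆ bd G U F := image_subset_iff.2 fun i _ => he' i
  obtain ⟨β2, o1, o2⟩ := t1.outside hβ hT (K' := 12 * y) (by nlinarith)
  obtain ⟨β3, o3, o4, o5⟩ := extend (U' := (U \ F ∪ univ.image e) ∪ univ.biUnion (C 2).lane) o1
    (x := e) (fun Z hZ => le_trans (card_le_card_of_injOn e (fun i hi => mem_coe.2 (mem_sdiff.2
      ⟨mem_image_of_mem _ (mem_univ _), (mem_filter.1 hi).2⟩)) he.injOn) (o2 Z hZ).2)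
    (P := (C 2).lane) (y := (C 2).a) (fun i => ⟨c2'.conn i,
      (subset_biUnion_of_mem _ (mem_univ i)).trans subset_union_right, heb ▸ c2'.mb i, c2'.ma i,
      fun v h2 h3 => by
        rcases mem_union.1 h3 with h3 | h3
        · exact absurd (hCs 2 (by omega) (c2'.sub i h2)) (mem_sdiff.1 h3).2
        · obtain ⟨j, -, rfl⟩ := mem_image.1 h3
          by_contra hc
          exact disjoint_left.1 (c2'.disj i j fun h => hc (by rw [h])) h2 (heb ▸ c2'.mb j)⟩)
    (fun i j h => (c2'.disj i j h).mono sdiff_subset sdiff_subset) subset_union_left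
  have dO : ∀ j < 2, Disjoint ((U \ F ∪ univ.image e) ∪ univ.biUnion (C 2).lane) (C j).reg := by
    intro j hj
    have d := hC.disj 2 (by omega) j (by omega) (by omega)
    refine disjoint_union_left.2 ⟨disjoint_union_left.2 ⟨sdiff_disjoint.mono_right
      (hCs j (by omega)), d.mono_left (image_subset_iff.2 fun i _ => c2'.sub i (heb ▸ c2'.mb i))⟩,
      d.mono_left (biUnion_subset.2 fun i _ => c2'.sub i)⟩
  have sl : (foot (C 1) H1)ᶜ.biUnion (C 1).lane ⊆ (C 1).reg := biUnion_subset.2 fun i _ => c1'.sub i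
  obtain ⟨U0, U1, φ, ψ, b1', a1, r1, r2, r3⟩ := hub (a := a) (b := b) o3 o5 hs (by omega)
    (fun Z hZ => by
      have e1 : (Z ∪ bd G U F).card < c0 * y := (card_union_le _ _).trans_lt (by nlinarith)
      have e2 : (Z ∪ bd G U F).card < (univ : Finset (Fin (c0 * c1 * s))).card := by
        rwa [card_univ, hw1]
      obtain ⟨i, -, hi⟩ := (hab.comp Sum.inl_injective le_rfl).exists_mem e1 e2
      obtain ⟨j, -, hj⟩ := (hab.comp Sum.inr_injective le_rfl).exists_mem e1 e2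
      exact ⟨⟨i, o4 Z (by omega) ((o2 Z (by omega)).1 hi)⟩,
        j, o4 Z (by omega) ((o2 Z (by omega)).1 hj)⟩)
    i0 i1 ⟨γ0, g5, v4⟩ ⟨γ1, g2, v2⟩ (by omega) (by omega)
    (fun k => hj0 k ▸ hC.adj 1 (by omega) _) (fun k => hj1 k ▸ hC.adj 1 (by omega) _)
    (disjoint_union_right.2 ⟨dO 0 (by omega), (dO 1 (by omega)).mono_right sl⟩)
    ((dO 1 (by omega)).mono_right g1) (disjoint_union_left.2
      ⟨(hC.disj 0 (by omega) 1 (by omega) (by omega)).mono_right g1,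
        (disjoint_biUnion_left _ _ _).2 fun i hi => not_mem_foot.1 (mem_compl.1 hi)⟩)
  have sF : ∀ j < 3, (C j).reg ⊆ U := fun j hj => (hCs j hj).trans t1.1.1
  have sU : (U \ F ∪ univ.image e) ∪ univ.biUnion (C 2).lane ∪
      ((C 0).reg ∪ (foot (C 1) H1)ᶜ.biUnion (C 1).lane) ∪ H1 ⊆ U :=
    union_subset (union_subset (union_subset (union_subset sdiff_subset
      (hT.trans (bd_subset.trans t1.1.1))) (biUnion_subset.2 fun i _ =>
        (c2'.sub i).trans (sF 2 (by omega)))) (union_subset (sF 0 (by omega))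
          (sl.trans (sF 1 (by omega))))) (g1.trans (sF 1 (by omega)))
  exact ⟨U0, U1, φ, ψ, b1', a1, r1.trans sU, r2.trans sU, r3⟩

end Pool.Agent.MP_35cb46_co

end MrgPart2

-- ======== part 3: formerly Pool.Agent.MP_35cb46_co.Chain
section MrgPart3

/-! Long chains of symmetric clusters with a polynomial loss. -/

namespace Pool.Agent.MP_35cb46_co

open Finset Pool.Agent.MP_7be75d_co
open scoped Classical

variable {V ι : Type} [Fintype ι] {G : SimpleGraph V}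

/-- A chain of `n` symmetric clusters inside `U`. -/
structure Ch (G : SimpleGraph V) (U : Finset V) (n : ℕ) (R : ℕ → Finset V) (A B : ℕ → ι → V) :
    Prop where
  cl : ∀ j < n, R j ⊆ U ∧ SC G (R j) (A j) (B j)
  disj : ∀ i < n, ∀ j < n, i ≠ j → Disjoint (R i) (R j)
  adj : ∀ j, j + 1 < n → ∀ i, G.Adj (B j i) (A (j + 1) i)

/-- A chain of `n + 1` clusters from `a` to `b`. -/
def Thr (G : SimpleGraph V) (U : Finset V) (a b : ι → V) (n : ℕ) : Prop :=
  ∃ R A B, Ch G U (n + 1) R A B ∧ A 0 = a ∧ B n = b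

variable {U U' : Finset V} {a b a' b' : ι → V} {n n' : ℕ}

theorem SC.thr (h : SC G U a b) : Thr G U a b 0 :=
  ⟨fun _ => U, fun _ => a, fun _ => b, ⟨fun _ _ => ⟨subset_rfl, h⟩, by omega, by omega⟩, rfl, rfl⟩

theorem Thr.mono (h : Thr G U a b n) (hU : U ⊆ U') : Thr G U' a b n := by
  obtain ⟨R, A, B, h1, h2⟩ := h
  exact ⟨R, A, B, ⟨fun j hj => ⟨(h1.cl j hj).1.trans hU, (h1.cl j hj).2⟩, h1.disj, h1.adj⟩, h2⟩

theorem Thr.append (h : Thr G U a b n) (h' : Thr G U' a' b' n') (hd : Disjoint U U')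
    (hab : ∀ i, G.Adj (b i) (a' i)) : Thr G (U ∪ U') a b' (n + n' + 1) := by
  obtain ⟨R, A, B, h1, h2, h3⟩ := h
  obtain ⟨R', A', B', h4, h5, h6⟩ := h'
  refine ⟨fun j => if j ≤ n then R j else R' (j - (n + 1)),
    fun j => if j ≤ n then A j else A' (j - (n + 1)),
    fun j => if j ≤ n then B j else B' (j - (n + 1)), ⟨fun j hj => ?_, fun i hi j hj hij => ?_,
      fun j hj i => ?_⟩, by simpa using h2, ?_⟩
  · by_cases c : j ≤ n <;> simp only [c, if_true, if_false]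
    · exact ⟨(h1.cl j (by omega)).1.trans subset_union_left, (h1.cl j (by omega)).2⟩
    · exact ⟨(h4.cl _ (by omega)).1.trans subset_union_right, (h4.cl _ (by omega)).2⟩
  · by_cases c : i ≤ n <;> by_cases c' : j ≤ n <;> simp only [c, c', if_true, if_false]
    · exact h1.disj i (by omega) j (by omega) hij
    · exact hd.mono (h1.cl i (by omega)).1 (h4.cl _ (by omega)).1
    · exact hd.symm.mono (h4.cl _ (by omega)).1 (h1.cl j (by omega)).1
    · exact h4.disj _ (by omega) _ (by omega) (by omega)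
  · by_cases c : j ≤ n <;> by_cases c' : j + 1 ≤ n <;> simp only [c, c', if_true, if_false]
    · exact h1.adj j (by omega) i
    · obtain rfl : j = n := by omega
      rw [h3, Nat.sub_self, h5]
      exact hab i
    · omega
    · rw [show j + 1 - (n + 1) = j - (n + 1) + 1 by omega]
      exact h4.adj _ (by omega) i
  · simp only [show ¬ n + n' + 1 ≤ n by omega, if_false]
    rw [show n + n' + 1 - (n + 1) = n' by omega, h6]

theorem SC.inj (h : SC G U a b) (hw : 1 < Fintype.card ι) :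
    Function.Injective a ∧ Function.Injective b :=
  ⟨(Fr.inj h hw).comp Sum.inl_injective, (Fr.inj h hw).comp Sum.inr_injective⟩

theorem Thr.inj (h : Thr G U a b n) (hw : 1 < Fintype.card ι) :
    Function.Injective a ∧ Function.Injective b := by
  obtain ⟨R, A, B, h1, h2, h3⟩ := h
  exact ⟨h2 ▸ ((h1.cl 0 (by omega)).2.inj hw).1, h3 ▸ ((h1.cl n (by omega)).2.inj hw).2⟩

theorem long_chain : ∃ c : ℕ, 0 < c ∧ ∀ (k : ℕ) {V ι : Type} [Fintype V] [Fintype ι]
    {G : SimpleGraph V} {U : Finset V} {a b : ι → V} {s : ℕ}, SC G U a b → 1 < s →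
    c ^ k * s ≤ Fintype.card ι → ∃ (n : ℕ) (φ ψ : Fin s → ι), 2 ^ k ≤ n + 1 ∧
      Thr G U (a ∘ φ) (b ∘ ψ) n := by
  obtain ⟨c, hc, h2⟩ := two_split
  refine ⟨c * c, by positivity, fun k => ?_⟩
  induction k with
  | zero =>
    intro V ι _ _ G U a b s h hs hw
    obtain ⟨η⟩ := Function.Embedding.nonempty_of_card_le (α := Fin s) (β := ι) (by simpa using hw)
    exact ⟨0, η, η, by simp, (h.res η.injective η.injective).thr⟩
  | succ k ih =>
    intro V ι _ _ G U a b s h hs hw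
    obtain ⟨t, ht⟩ : ∃ t, t = (c * c) ^ k * s := ⟨_, rfl⟩
    have ht1 : 1 < t := ht ▸ hs.trans_le (Nat.le_mul_of_pos_left _ (by positivity))
    obtain ⟨U0, U1, φ, ψ, b0, a1, s1, s2, s3, s4, s5, s6⟩ := h2 (s := c * t) h (by positivity)
      (le_trans (le_of_eq (by rw [ht]; ring)) hw)
    obtain ⟨U2, U3, φ', ψ', b2, a3, t1, t2, t3, t4, t5, t6⟩ := h2 (s := t) s5 (by omega) (by simp)
    have i1 : Function.Injective φ' := (t4.inj (by simpa using ht1)).1.of_comp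
    obtain ⟨n1, φ1, ψ1, e1, e2⟩ := ih (s4.res i1 i1) hs (by simp [ht])
    obtain ⟨n2, φ2, ψ2, e3, e4⟩ := ih t5 hs (by simp [ht])
    have i2 : Function.Injective ψ1 := (e2.inj (by simpa using hs)).2.of_comp
    have i3 : Function.Injective φ2 := (e4.inj (by simpa using hs)).1.of_comp
    refine ⟨n1 + (0 + n2 + 1) + 1, φ ∘ φ' ∘ φ1, ψ ∘ ψ' ∘ ψ2, by rw [pow_succ]; omega,
      (e2.append ((t4.res i2 i3).thr.append e4 t3 fun i => t6 _)
        (s3.mono_right (union_subset t1 t2)) fun i => s6 _).mono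
        (union_subset s1 ((union_subset t1 t2).trans s2))⟩

end Pool.Agent.MP_35cb46_co

end MrgPart3

-- ======== part 4: formerly Pool.Agent.MP_35cb46_co.Fat
section MrgPart4

/-! Brambles, routers and one fat piece on a prescribed wire. -/

namespace Pool.Agent.MP_35cb46_co

open Finset Pool.Agent.MP_7be75d_co
open scoped Classical

variable {V : Type} {G : SimpleGraph V}

/-- `S` holds pairwise intersecting connected sets that cannot be hit by `t` vertices. -/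
def Fat (G : SimpleGraph V) (t : ℕ) (S : Finset V) : Prop :=
  ∃ γ : Finset V → Finset V, (∀ Z : Finset V, Z.card ≤ t → Conn G (γ Z) ∧ γ Z ⊆ S \ Z) ∧
    ∀ Z Z' : Finset V, Z.card ≤ t → Z'.card ≤ t → ∃ v, v ∈ γ Z ∧ v ∈ γ Z'

theorem Fat.mono {G' : SimpleGraph V} {t : ℕ} {S S' : Finset V} (h : Fat G t S) (hG : G ≤ G')
    (hS : S ⊆ S') : Fat G' t S' := by
  obtain ⟨γ, h1, h2⟩ := h
  exact ⟨γ, fun Z hZ => ⟨(h1 Z hZ).1.mono' fun _ _ h _ _ => hG h,
    (h1 Z hZ).2.trans (sdiff_subset_sdiff hS subset_rfl)⟩, h2⟩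

theorem fat_of_haven {U : Finset V} {K t : ℕ} {β : Finset V → Finset V} (h : Haven G U K β)
    (ht : 2 * t < K) : Fat G t (β ∅) := by
  refine ⟨β, fun Z hZ => ⟨h.conn Z (by omega), fun v hv => mem_sdiff.2
    ⟨h.mono _ _ (empty_subset _) (by omega) hv, h.not_mem (by omega) hv⟩⟩, fun Z Z' hZ hZ' => ?_⟩
  have hc : (Z ∪ Z').card < K := (card_union_le _ _).trans_lt (by omega)
  obtain ⟨v, hv⟩ := (h.conn _ hc).1
  exact ⟨v, h.mono _ _ subset_union_left hc hv, h.mono _ _ subset_union_right hc hv⟩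

theorem Fat.le_treewidth {U : Finset V} {t : ℕ} (h : Fat G t U) :
    t ≤ treewidth (G.induce (U : Set V)) := by
  by_contra hc
  obtain ⟨γ, g1, g2⟩ := h
  obtain ⟨ι, hι, T, B, hT, hB, hE, hcard⟩ := hasTreeDecomp_treewidth (G.induce (U : Set V))
  have hZ : ∀ i, ((B i).image Subtype.val).card ≤ t := fun i =>
    card_image_le.trans ((hcard i).trans (by omega))
  let K : ι → Finset V := fun i => γ ((B i).image Subtype.val)
  have hKU : ∀ i, K i ⊆ U := fun i => (g1 _ (hZ i)).2.trans sdiff_subset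
  let N : V → Finset ι := fun v => univ.filter fun j => v ∈ (B j).image Subtype.val
  have hN : ∀ (v : V) (hv : v ∈ U) j, j ∈ N v ↔ (⟨v, hv⟩ : (U : Set V)) ∈ B j := by
    intro v hv j
    simp only [N, mem_filter, mem_univ, true_and, mem_image]
    exact ⟨fun ⟨a, ha, h⟩ => by subst h; exact ha, fun h => ⟨_, h, rfl⟩⟩
  have hNc : ∀ v ∈ U, Conn T (N v) := by
    intro v hv
    refine conn_of_connected ?_
    have : ((N v : Finset ι) : Set ι) = {i | (⟨v, hv⟩ : (U : Set V)) ∈ B i} := by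
      ext j; exact hN v hv j
    rw [this]
    exact hB _
  have hS : ∀ i, Conn T ((K i).biUnion N) := by
    intro i
    obtain ⟨w, hwK⟩ := (g1 _ (hZ i)).1.1
    obtain ⟨a, ha⟩ := (hNc w (hKU i hwK)).1
    refine Conn.of_center (mem_biUnion.2 ⟨w, hwK, ha⟩) ?_
    intro b hb
    obtain ⟨v, hv, hb⟩ := mem_biUnion.1 hb
    have := ((g1 _ (hZ i)).1.2 _ hwK v hv).ind
      (P := fun v => v ∈ K i ∧ ∀ b ∈ N v, R T ((K i).biUnion N) a b)
      ⟨hwK, fun b hb => (hNc _ (hKU i hwK)).r ha hb (subset_biUnion_of_mem N hwK)⟩ (by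
        intro x y _ hx hxy hxK hyK
        refine ⟨hyK, fun b hb => ?_⟩
        obtain ⟨j, hj, hj'⟩ := hE ⟨x, hKU i hxK⟩ ⟨y, hKU i hyK⟩ (by simpa using hxy)
        exact (hx.2 j ((hN _ _ j).2 hj)).trans
          ((hNc _ (hKU i hyK)).r ((hN _ _ j).2 hj') hb (subset_biUnion_of_mem N hyK)))
    exact this.2 b hb
  obtain ⟨i, hi⟩ := tree_helly hT _ hS (by
    intro i j
    obtain ⟨v, hvi, hvj⟩ := g2 _ _ (hZ i) (hZ j)
    obtain ⟨m, hm⟩ := (hNc v (hKU i hvi)).1
    exact ⟨m, mem_biUnion.2 ⟨v, hvi, hm⟩, mem_biUnion.2 ⟨v, hvj, hm⟩⟩)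
  obtain ⟨v, hv, hi⟩ := mem_biUnion.1 hi
  exact (mem_sdiff.1 ((g1 _ (hZ i)).2 hv)).2 (mem_filter.1 hi).2

theorem treewidth_induce_le [Fintype V] (S : Set V) : treewidth (G.induce S) ≤ treewidth G := by
  obtain ⟨ι, hι, T, B, hT, hB, hE, hcard⟩ := hasTreeDecomp_treewidth G
  refine Nat.sInf_le ⟨ι, hι, T, fun i => (B i).subtype (· ∈ S), hT, fun v => ?_, fun u v h => ?_,
    fun i => le_trans ?_ (hcard i)⟩
  · have : {i | v ∈ (B i).subtype (· ∈ S)} = {i | v.1 ∈ B i} := by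
      ext i; simp
    rw [this]
    exact hB v.1
  · obtain ⟨i, h1, h2⟩ := hE u.1 v.1 h
    exact ⟨i, by simpa using h1, by simpa using h2⟩
  · rw [card_subtype]
    exact card_filter_le _ _

/-- Two members of a family are adjacent when the sets touch. -/
def TG {κ : Type} (G : SimpleGraph V) (R : κ → Finset V) : SimpleGraph κ :=
  ⟨fun k k' => k ≠ k' ∧ Touch G (R k) (R k'), ⟨fun _ _ h => ⟨h.1.symm, h.2.symm⟩⟩,
    ⟨fun _ h => h.1 rfl⟩⟩

theorem router [Fintype V] {ι κ : Type} [Fintype ι] [Fintype κ] [Nonempty κ] {U : Finset V}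
    {a b : ι → V} (h : SC G U a b) {p : κ → ι} (hp : Function.Injective p) {J : Finset ι}
    (hJ : Fintype.card κ ≤ J.card) : ∃ (R : κ → Finset V) (e : κ → ι),
      Bun G U R (a ∘ p) (b ∘ e) ∧ (∀ k, e k ∈ J) ∧ Conn (TG G R) univ := by
  obtain ⟨β, h1, h2⟩ := h
  have hw : Fintype.card κ ≤ Fintype.card ι := Fintype.card_le_of_injective p hp
  have hw0 : 0 < Fintype.card ι := Fintype.card_pos.trans_le hw
  have h0 : (∅ : Finset V).card < Fintype.card ι := by simpa using hw0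
  have ha : FreeH (Fintype.card ι) β (a ∘ p) := (h2.comp Sum.inl_injective le_rfl).comp hp le_rfl
  have hb : FreeH (Fintype.card ι) β b := h2.comp Sum.inr_injective le_rfl
  obtain ⟨P, e, p1, p2⟩ := link_from h1 hw ha (J := J) (y := b)
    (fun Z hZ => hb.exists_mem (by omega) (by omega))
  have hP' : ∀ k, (a ∘ p) k ∈ P k := fun k => (p1 k).2.2.1
  obtain ⟨R', ⟨r1, r2⟩, hm⟩ := exists_max_of (p := fun R' : κ → Finset V =>
    (∀ k, P k ⊆ R' k ∧ R' k ⊆ β ∅ ∧ Conn G (R' k)) ∧ ∀ k k', k ≠ k' → Disjoint (R' k) (R' k'))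
    (fun R' => (univ.biUnion R').card) (Fintype.card V) (fun _ _ => card_le_univ _)
    ⟨P, fun k => ⟨subset_rfl, h1.absorb h0 (p1 k).2.1 (p1 k).1 (by simp) (hP' k)
      (ha.mem_empty hw0 k), (p1 k).2.1⟩, p2⟩
  obtain ⟨k0⟩ := ‹Nonempty κ›
  have hcov : β ∅ ⊆ univ.biUnion R' := by
    intro y hy
    by_contra hc
    obtain ⟨u, v, h3, h4, -, h5, h6⟩ := (h1.conn _ h0).exit ((r1 k0).2.1 ((r1 k0).1 (hP' k0)))
      (mem_biUnion.2 ⟨k0, mem_univ _, (r1 k0).1 (hP' k0)⟩) hy hc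
    obtain ⟨k, -, hk⟩ := mem_biUnion.1 h3
    have hs : ∀ k', R' k' ⊆ if k' = k then insert v (R' k') else R' k' := fun k' => by
      split_ifs
      · exact subset_insert _ _
      · exact subset_rfl
    have hv : ∀ k', v ∉ R' k' := fun k' hc => h4 (mem_biUnion.2 ⟨k', mem_univ _, hc⟩)
    have := hm (fun k' => if k' = k then insert v (R' k') else R' k')
      ⟨fun k' => ⟨(r1 k').1.trans (hs k'), ?_, ?_⟩, fun k1 k2 hn => ?_⟩
    · refine absurd this (not_le.2 (card_lt_card ⟨biUnion_mono fun k' _ => hs k', fun hc => h4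
        (hc (mem_biUnion.2 ⟨k, mem_univ _, by simp⟩))⟩))
    · split_ifs
      · exact insert_subset h5 (r1 k').2.1
      · exact (r1 k').2.1
    · split_ifs with e
      · exact (r1 k').2.2.insert (e ▸ hk) h6
      · exact (r1 k').2.2
    · split_ifs with e1 e2 e2
      · exact absurd (e1.trans e2.symm) hn
      · exact disjoint_insert_left.2 ⟨hv _, r2 _ _ hn⟩
      · exact disjoint_insert_right.2 ⟨hv _, r2 _ _ hn⟩
      · exact r2 _ _ hn
  refine ⟨R', e, ⟨fun k => (r1 k).2.1.trans (h1.subU h0), fun k => (r1 k).2.2, r2,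
    fun k => (r1 k).1 (hP' k), fun k => (r1 k).1 (p1 k).2.2.2.2⟩, fun k => (p1 k).2.2.2.1,
    Conn.of_center (mem_univ k0) fun k _ => ?_⟩
  have hr := (h1.conn _ h0).2 _ ((r1 k0).2.1 ((r1 k0).1 (hP' k0))) _
    ((r1 k).2.1 ((r1 k).1 (hP' k)))
  refine hr.ind (P := fun v => ∀ k, v ∈ R' k → R (TG G R') univ k0 k) (fun k' hk' => ?_) ?_ k
    ((r1 k).1 (hP' k))
  · by_cases e : k0 = k'
    · exact e ▸ R.refl
    · exact absurd hk' (disjoint_left.1 (r2 _ _ e) ((r1 k0).1 (hP' k0)))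
  · intro x y _ ih hxy hx _ k' hk'
    obtain ⟨k'', -, h3⟩ := mem_biUnion.1 (hcov hx)
    by_cases e : k'' = k'
    · exact e ▸ ih k'' h3
    · exact (ih k'' h3).tail ⟨e, x, h3, y, hk', hxy⟩ (mem_univ _) (mem_univ _)

/-- An independent set in a digraph of bounded out-degree. -/
theorem indep_set {ι : Type} {f : ι → Finset ι} {d : ℕ} (hf : ∀ i, (f i).card ≤ d) (m : ℕ) :
    ∀ W : Finset ι, m * (2 * d + 1) ≤ W.card →
      ∃ J ⊆ W, J.card = m ∧ ∀ i ∈ J, ∀ j ∈ J, i ≠ j → j ∉ f i := by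
  induction m with
  | zero => exact fun W _ => ⟨∅, by simp, rfl, by simp⟩
  | succ m ih =>
    intro W hW
    obtain ⟨x, hx, hx'⟩ : ∃ x ∈ W, (W.filter fun i => x ∈ f i).card ≤ d := by
      have h1 : ∑ x ∈ W, (W.filter fun i => x ∈ f i).card =
          ∑ i ∈ W, (W.filter fun x => x ∈ f i).card := by
        simp only [card_filter]
        exact sum_comm
      refine exists_le_of_sum_le (card_pos.1 (by nlinarith)) (h1.trans_le (sum_le_sum fun i _ => ?_))
      exact (card_le_card fun x hx => (mem_filter.1 hx).2).trans (hf i)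
    obtain ⟨J, h1, h2, h3⟩ := ih (W \ insert x (f x ∪ W.filter fun i => x ∈ f i)) (by
      have h4 := le_card_sdiff (insert x (f x ∪ W.filter fun i => x ∈ f i)) W
      have h5 := card_insert_le x (f x ∪ W.filter fun i => x ∈ f i)
      have h6 := card_union_le (f x) (W.filter fun i => x ∈ f i)
      have h7 := hf x
      rw [add_mul] at hW
      omega)
    have h4 : ∀ j ∈ J, j ∈ W ∧ j ≠ x ∧ j ∉ f x ∧ x ∉ f j := fun j hj => by
      have := mem_sdiff.1 (h1 hj)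
      simp only [mem_insert, mem_union, mem_filter, not_or, not_and] at this
      exact ⟨this.1, this.2.1, this.2.2.1, this.2.2.2 this.1⟩
    refine ⟨insert x J, insert_subset hx fun j hj => (h4 j hj).1,
      by rw [card_insert_of_notMem fun hc => (h4 x hc).2.1 rfl, h2], fun i hi j hj hij => ?_⟩
    rcases mem_insert.1 hi with rfl | hi' <;> rcases mem_insert.1 hj with rfl | hj'
    · exact absurd rfl hij
    · exact (h4 j hj').2.2.1
    · exact (h4 i hi').2.2.2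
    · exact h3 i hi' j hj' hij

theorem core_poly [Fintype V] {ι : Type} [Fintype ι] {C : CD V ι} {D : ℕ} (hD : 0 < D)
    (h : IsCluster G C) (hσ : Sep G (5 * Fintype.card ι))
    (hE : 8 * (36 * D ^ 2) * (6 * 10 ^ 7 * D ^ 4) ≤ Fintype.card ι) (q : ι) :
    ∃ K U β, Fintype.card ι ≤ 8 * (36 * D ^ 2) * (6 * 10 ^ 7 * D ^ 4) * K ∧ Pre G C U K β ∧
      C.a q ∈ β ∅ ∧ D * (foot C U).card ≤ Fintype.card ι := by
  obtain ⟨μ, hμ⟩ : ∃ μ, μ = 18 * D := ⟨_, rfl⟩
  obtain ⟨j, hj1, hj2⟩ : ∃ j, 2 * μ < 2 ^ j ∧ 4 ^ j ≤ 16 * μ ^ 2 := by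
    refine ⟨Nat.log 2 (2 * μ) + 1, Nat.lt_pow_succ_log_self (by omega) _, ?_⟩
    have := Nat.pow_log_le_self 2 (show 2 * μ ≠ 0 by omega)
    calc 4 ^ (Nat.log 2 (2 * μ) + 1) = (2 * 2 ^ Nat.log 2 (2 * μ)) ^ 2 := by
          rw [show (4 : ℕ) = 2 ^ 2 by norm_num, ← pow_mul, ← pow_succ', ← pow_mul, mul_comm]
      _ ≤ (2 * (2 * μ)) ^ 2 := Nat.pow_le_pow_left (by omega) _
      _ = _ := by ring
  obtain ⟨A, hA⟩ : ∃ A, A = 36 * D ^ 2 := ⟨_, rfl⟩
  obtain ⟨M, hM⟩ : ∃ M, M = 6 * 10 ^ 7 * D ^ 4 := ⟨_, rfl⟩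
  have hD2 : 1 ≤ D ^ 2 := Nat.one_le_pow _ _ hD
  have hM1 : (12 * (5 * (2 * A)) + 13) ^ 2 * 3 + 4 ^ j ≤ M := by
    have h1 : 12 * (5 * (2 * A)) + 13 ≤ 4333 * D ^ 2 := by omega
    have h2 := Nat.pow_le_pow_left h1 2
    have h3 : D ^ 2 ≤ D ^ 4 := Nat.pow_le_pow_right hD (by omega)
    have h4 : (4333 * D ^ 2) ^ 2 = 4333 ^ 2 * D ^ 4 := by ring
    have h5 : 16 * μ ^ 2 = 5184 * D ^ 2 := by rw [hμ]; ring
    omega
  rw [← hA, ← hM] at hE ⊢
  have hA1 : A = 2 * D * μ := by rw [hA, hμ]; ring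
  have hA0 : 12 ≤ A := by omega
  have hM0 : 0 < M := by rw [hM]; positivity
  clear hM hA hj2
  obtain ⟨w, hw⟩ : ∃ w, w = Fintype.card ι := ⟨_, rfl⟩
  obtain ⟨y, hy1, hy2⟩ : ∃ y, A * y ≤ w ∧ w < A * (y + 1) :=
    ⟨w / A, Nat.mul_div_le _ _, Nat.lt_mul_div_succ _ (by omega)⟩
  obtain ⟨K, hK1, hK2⟩ : ∃ K, 2 * M * K ≤ y ∧ y < 2 * M * (K + 1) :=
    ⟨y / (2 * M), Nat.mul_div_le _ _, Nat.lt_mul_div_succ _ (by omega)⟩
  rw [← hw] at hE hσ ⊢
  have hy3 : 2 * M ≤ y := by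
    by_contra hc
    have : A * (y + 1) ≤ A * (2 * M) := Nat.mul_le_mul_left _ (by omega)
    nlinarith
  have hK3 : 0 < K := by
    rcases Nat.eq_zero_or_pos K with rfl | h
    · omega
    · exact h
  have hy4 : w ≤ 2 * A * y := by nlinarith
  have hy5 : y ≤ 4 * M * K := by nlinarith
  have hy6 : 12 * y ≤ w := le_trans (Nat.mul_le_mul_right _ hA0) hy1
  have hK4 := (Nat.mul_le_mul_right K (Nat.mul_le_mul_left 2 hM1)).trans hK1
  have fin : ∀ U β, Pre G C U K β → (foot C U).card ≤ μ * y →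
      (∀ i, C.b i ∈ U → C.b i ∈ ball G C q (1 + 2 * y + 4 * D * (3 * y) + 2 * y)) →
      ∃ K U β, w ≤ 8 * A * M * K ∧ Pre G C U K β ∧ C.a q ∈ β ∅ ∧ D * (foot C U).card ≤ w := by
    intro U β hp hf hb
    have h0 : (∅ : Finset V).card < K := by simpa using hK3
    obtain ⟨i, hi⟩ := card_pos.1 (hK3.trans_le (hp.2.2 ∅ h0))
    have hi := (mem_filter.1 hi).2
    obtain ⟨-, T, t1, t2, t3, t4, t5⟩ := mem_filter.1 (hb i (hp.2.1.subU h0 hi))
    obtain ⟨β', h1, h2⟩ := hp.2.1.enlarge (U' := U ∪ T) subset_union_left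
    refine ⟨K, U ∪ T, β', by nlinarith, ⟨union_subset hp.1 t1, h1, fun Z hZ =>
      (hp.2.2 Z hZ).trans (card_le_card fun j hj =>
        mem_filter.2 ⟨mem_univ _, h2 Z hZ (mem_filter.1 hj).2⟩)⟩,
      h1.absorb h0 t2 subset_union_right (by simp) t4 (h2 ∅ h0 hi) t3, ?_⟩
    rw [foot_union]
    have h3 := card_union_le (foot C U) (foot C T)
    have h5 : y ≤ D * y := Nat.le_mul_of_pos_left _ hD
    have h4 : (foot C U ∪ foot C T).card ≤ 2 * μ * y := by rw [hμ] at *; nlinarith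
    calc _ ≤ D * (2 * μ * y) := Nat.mul_le_mul_left _ h4
      _ = A * y := by rw [hA1]; ring
      _ ≤ w := hy1
  by_cases hc : ∃ v ∈ C.β ∅, v ∉ ball G C q (1 + 2 * y + 4 * D * (3 * y) + 2 * y)
  · obtain ⟨v, h1, h2⟩ := hc
    obtain ⟨U, β, h3, h4, h5⟩ := far_case (μ := μ) (t := K) (K := K) h hj1
      (by rw [← hw]; exact hy4.trans (by rw [hA1]; exact le_of_eq (by ring))) (by omega)
      (by nlinarith [Nat.zero_le ((12 * (5 * (2 * A)) + 13) ^ 2 * K), Nat.zero_le (4 ^ j * K)])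
      le_rfl (by omega) h1 h2
    exact fin U β h3 h4 fun i hi => h5 hi
  · push Not at hc
    obtain ⟨U, β, h3, h4⟩ := near_case (ρ := 5 * (2 * A)) (b := y) (t := 2 * K) (K := K) h hσ
      (by rw [mul_assoc]; exact Nat.mul_le_mul_left _ hy4) (by omega)
      (by nlinarith [Nat.zero_le (4 ^ j * K)]) (by omega) le_rfl
    exact fin U β h3 (h4.trans (Nat.mul_le_mul_right _ (by omega)))
      fun i _ => hc _ (h.lane_sub_empty i (h.mb i))

end Pool.Agent.MP_35cb46_co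

end MrgPart4

-- marker of a merged file
example : 731051 + 121581 = 731051 + 121581 := rfl
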