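import Pool.Agent.MP_35cb46_co.Fat

/-! Wires with fat pieces and the contracted graph. -/

namespace Pool.Agent.MP_35cb46_co

open Finset Pool.Agent.MP_7be75d_co
open scoped Classical

variable {V : Type} {G : SimpleGraph V}

/-- The width that is needed per unit of tree-width of the pieces. -/
def EE (m : ℕ) : ℕ := 8 * (36 * (4 * m) ^ 2) * (6 * 10 ^ 7 * (4 * m) ^ 4)

theorem EE_eq (m : ℕ) : EE m = 70778880000000 * m ^ 6 := by unfold EE; ring

theorem gadget [Fintype V] {ι : Type} [Fintype ι] {U : Finset V} {a b : ι → V} {m p : ℕ}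
    (h : SC G U a b) (hm : 0 < m) (hw : EE m * (2 * p + 1) ≤ Fintype.card ι) :
    ∃ J : Finset ι, J.card = m ∧ ∀ e : Fin m → ι, Function.Injective e → (∀ k, e k ∈ J) →
      ∀ s : Fin m, ∃ (D : Fin m → Finset V) (o : Fin m → ι),
        Bun G U D (a ∘ e) (b ∘ o) ∧ Fat G p (D s) := by
  have hE : 2 * m ≤ EE m := by
    have := Nat.le_self_pow (show 6 ≠ 0 by omega) m
    rw [EE_eq]; omega
  have hE' : EE m ≤ Fintype.card ι := le_trans (Nat.le_mul_of_pos_right _ (by omega)) hw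
  obtain ⟨G', hG, U', hU, h1, hσ⟩ := h.reduce (by omega)
  obtain ⟨C, ε, c1, c2, c3, c4⟩ := h1.lanes
  choose K S β k1 k2 k3 k4 using core_poly (D := 4 * m) (by omega) c1 hσ hE'
  obtain ⟨J, -, j1, j2⟩ := indep_set (f := fun q => foot C (S q)) (d := Fintype.card ι / (4 * m))
    (fun q => (Nat.le_div_iff_mul_le (by omega)).2 (by rw [mul_comm]; exact k4 q)) m univ (by
      have := Nat.mul_div_le (Fintype.card ι) (4 * m)
      rw [card_univ]
      nlinarith)
  refine ⟨J, j1, fun e he heJ s => ?_⟩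
  have hK : 2 * p < K (e s) := Nat.le_of_mul_le_mul_left (hw.trans (k1 (e s))) (by omega)
  obtain ⟨p1, p2, p3⟩ := k2 (e s)
  have h0 : (∅ : Finset V).card < K (e s) := by simp; omega
  obtain ⟨i, hi⟩ := card_pos.1 (lt_of_lt_of_le (by omega) (p3 ∅ h0))
  have d0 : ∀ k, k ≠ s → Disjoint (C.lane (e k)) (β (e s) ∅) := fun k hk =>
    (not_mem_foot.1 (j2 _ (heJ s) _ (heJ k) fun h => hk (he h).symm)).mono_right (p2.subU h0)
  refine ⟨fun k => if k = s then β (e s) ∅ else C.lane (e k),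
    fun k => if k = s then ε i else ε (e k), ⟨fun k => ?_, fun k => ?_, fun k k' hk => ?_,
      fun k => ?_, fun k => ?_⟩, by simpa using (fat_of_haven p2 hK).mono hG subset_rfl⟩
  · split_ifs
    · exact (p2.subU h0).trans (p1.trans (c2 ▸ hU))
    · exact (c1.sub _).trans (c2 ▸ hU)
  · split_ifs
    · exact (p2.conn _ h0).mono' fun _ _ h _ _ => hG h
    · exact (c1.conn _).mono' fun _ _ h _ _ => hG h
  · split_ifs with e1 e2 e2
    · exact absurd (e1.trans e2.symm) hk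
    · exact (d0 k' e2).symm
    · exact d0 k e1
    · exact c1.disj _ _ fun h => hk (he h)
  · simp only [Function.comp]
    split_ifs with e1
    · rw [e1, ← c3]; exact k3 _
    · rw [← c3]; exact c1.ma _
  · simp only [Function.comp]
    split_ifs with e1
    · have := (mem_filter.1 hi).2
      rwa [c4] at this
    · have := c1.mb (e k)
      rwa [c4] at this

theorem wires [Fintype V] {ι : Type} [Fintype ι] {U : Finset V} {n m p : ℕ} {R : ℕ → Finset V}
    {A B : ℕ → ι → V} (h : Ch G U n R A B) (hm : 0 < m) (hn : 2 * (m * m) ≤ n)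
    (hw : EE m * (2 * p + 1) ≤ Fintype.card ι) :
    ∃ W : ℕ → Fin m → Finset V, (∀ t < m * m, (∀ k, Conn G (W t k)) ∧
      Fat G p (W t ⟨t % m, Nat.mod_lt _ hm⟩) ∧ Conn (TG G (W t)) univ) ∧
      (∀ t < m * m, ∀ t' < m * m, ∀ k k', t ≠ t' ∨ k ≠ k' → Disjoint (W t k) (W t' k')) ∧
      ∀ t, t + 1 < m * m → ∀ k, Touch G (W t k) (W (t + 1) k) := by
  have : Nonempty (Fin m) := ⟨⟨0, hm⟩⟩
  have step : ∀ (t : ℕ) (π : {π : Fin m → ι // Function.Injective π}),
      ∃ (π' : {π : Fin m → ι // Function.Injective π}) (W : Fin m → Finset V), t < m * m →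
        Bun G (R (2 * t) ∪ R (2 * t + 1)) W (A (2 * t) ∘ π.1) (B (2 * t + 1) ∘ π'.1) ∧
        Fat G p (W ⟨t % m, Nat.mod_lt _ hm⟩) ∧ Conn (TG G W) univ := by
    intro t π
    by_cases ht : t < m * m
    swap
    · exact ⟨π, fun _ => ∅, fun h => absurd h ht⟩
    obtain ⟨J, j1, j2⟩ := gadget (h.cl (2 * t + 1) (by omega)).2 hm hw
    obtain ⟨P, e, r1, r2, r3⟩ := router (h.cl (2 * t) (by omega)).2 π.2 (J := J) (by simp [j1])
    obtain ⟨D, o, d1, d2⟩ := j2 e (inj_of_disj r1.right r1.disj) r2 ⟨t % m, Nat.mod_lt _ hm⟩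
    have d3 := h.disj (2 * t) (by omega) (2 * t + 1) (by omega) (by omega)
    refine ⟨⟨o, inj_of_disj d1.right d1.disj⟩, fun k => P k ∪ D k, fun _ =>
      ⟨⟨fun k => union_subset_union (r1.sub k) (d1.sub k), fun k => (r1.conn k).union_adj
        (d1.conn k) (r1.right k) (d1.left k) (h.adj _ (by omega) _), fun k k' hk => ?_,
        fun k => mem_union_left _ (r1.left k), fun k => mem_union_right _ (d1.right k)⟩,
      d2.mono le_rfl subset_union_right, r3.mono' fun k k' hk _ _ =>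
        ⟨hk.1, hk.2.mono subset_union_left subset_union_left⟩⟩⟩
    exact disjoint_union_left.2 ⟨disjoint_union_right.2 ⟨r1.disj k k' hk,
      d3.mono (r1.sub _) (d1.sub _)⟩, disjoint_union_right.2
        ⟨d3.symm.mono (d1.sub _) (r1.sub _), d1.disj k k' hk⟩⟩
  choose nx W hW using step
  obtain ⟨η⟩ := Function.Embedding.nonempty_of_card_le (α := Fin m) (β := ι) (by
    have := Nat.le_self_pow (show 6 ≠ 0 by omega) m
    rw [EE_eq] at hw
    rw [Fintype.card_fin]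
    nlinarith)
  let π : ℕ → {π : Fin m → ι // Function.Injective π} := fun t => Nat.rec ⟨η, η.injective⟩ nx t
  refine ⟨fun t => W t (π t), fun t ht => ⟨(hW t _ ht).1.conn, (hW t _ ht).2⟩,
    fun t ht t' ht' k k' hne => ?_, fun t ht k => ⟨_, (hW t _ (by omega)).1.right k, _,
      (hW (t + 1) _ ht).1.left k, h.adj (2 * t + 1) (by omega) _⟩⟩
  by_cases e : t = t'
  · subst e
    exact (hW t _ ht).1.disj k k' (hne.resolve_left fun h => h rfl)
  · refine Disjoint.mono ((hW t _ ht).1.sub k) ((hW t' _ ht').1.sub k') ?_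
    rw [disjoint_union_left, disjoint_union_right, disjoint_union_right]
    refine ⟨⟨?_, ?_⟩, ?_, ?_⟩ <;> exact h.disj _ (by omega) _ (by omega) (by omega)

theorem conn_chain {f : ℕ → Finset V} {n : ℕ} (h1 : ∀ r < n + 1, Conn G (f r))
    (h2 : ∀ r < n, Touch G (f r) (f (r + 1))) : Conn G ((range (n + 1)).biUnion f) := by
  induction n with
  | zero => simpa using h1 0 (by omega)
  | succ n ih =>
    rw [range_add_one, biUnion_insert]
    exact (h1 _ (by omega)).union_touch (ih (fun r hr => h1 r (by omega)) fun r hr => h2 r (by omega))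
      ((h2 n (by omega)).symm.mono subset_rfl (subset_biUnion_of_mem f (by simp)))

theorem cells {m p : ℕ} {W : ℕ → Fin (m + 1) → Finset V} {X : Type} [Fintype X]
    (e : Fin (m + 1) × Fin (m + 1) ≃ X)
    (h1 : ∀ t < (m + 1) * (m + 1), (∀ k, Conn G (W t k)) ∧
      Fat G p (W t ⟨t % (m + 1), Nat.mod_lt _ (by omega)⟩) ∧ Conn (TG G (W t)) univ)
    (h2 : ∀ t < (m + 1) * (m + 1), ∀ t' < (m + 1) * (m + 1), ∀ k k', t ≠ t' ∨ k ≠ k' →
      Disjoint (W t k) (W t' k'))
    (h3 : ∀ t, t + 1 < (m + 1) * (m + 1) → ∀ k, Touch G (W t k) (W (t + 1) k)) :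
    ∃ S : X → Set V, (∀ i j, i ≠ j → Disjoint (S i) (S j)) ∧
      (∀ i, (G.induce (S i)).Connected) ∧ (∀ i, p ≤ treewidth (G.induce (S i))) ∧
      m ≤ treewidth (SimpleGraph.fromRel fun i j : X => ∃ x ∈ S i, ∃ y ∈ S j, G.Adj x y) := by
  let T : Fin (m + 1) × Fin (m + 1) → Finset V := fun x =>
    (range (m + 1)).biUnion fun r => W (x.2 * (m + 1) + r) x.1
  have hb : ∀ (b : Fin (m + 1)), ∀ r < m + 1, b * (m + 1) + r < (m + 1) * (m + 1) := fun b r hr => by
    have := Nat.mul_le_mul_right (m + 1) (Nat.le_of_lt_succ b.2)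
    nlinarith
  have hT : ∀ k b, ∀ r < m + 1, W (b.1 * (m + 1) + r) k ⊆ T (k, b) := fun k b r hr =>
    subset_biUnion_of_mem (fun r => W (b.1 * (m + 1) + r) k) (mem_range.2 hr)
  refine ⟨fun i => T (e.symm i), fun i j hij => disjoint_coe.2 ?_, fun i => Conn.connected
    (conn_chain (fun r hr => (h1 _ (hb _ r hr)).1 _) fun r hr => h3 _ (hb _ (r + 1) (by omega)) _),
    fun i => Fat.le_treewidth ?_, le_trans (Fat.le_treewidth (U := univ) ?_)
      (treewidth_induce_le _)⟩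
  · have hne : e.symm i ≠ e.symm j := fun h => hij (e.symm.injective h)
    rw [disjoint_biUnion_left]
    intro r hr
    rw [disjoint_biUnion_right]
    intro r' hr'
    rw [mem_range] at hr hr'
    refine h2 _ (hb _ r hr) _ (hb _ r' hr') _ _ ?_
    by_contra hc
    push Not at hc
    refine hne (Prod.ext hc.2 (Fin.ext ?_))
    have := congrArg (· / (m + 1)) hc.1
    simp only [add_comm (_ * (m + 1)), Nat.add_mul_div_right _ _ (Nat.succ_pos m),
      Nat.div_eq_of_lt hr, Nat.div_eq_of_lt hr', zero_add] at this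
    exact this
  · obtain ⟨k, b⟩ := e.symm i
    have := (h1 _ (hb b k k.2)).2.1
    simp only [Nat.mul_add_mod_self_right, Nat.mod_eq_of_lt k.2] at this
    exact this.mono le_rfl (hT k b k k.2)
  set Q := SimpleGraph.fromRel fun i j : X =>
    ∃ x ∈ ((T (e.symm i) : Finset V) : Set V), ∃ y ∈ ((T (e.symm j) : Finset V) : Set V), G.Adj x y
  have hQ : ∀ x y, x ≠ y → Touch G (T x) (T y) → Q.Adj (e x) (e y) := fun x y h ht => by
    rw [SimpleGraph.fromRel_adj]
    exact ⟨fun h' => h (e.injective h'), Or.inl (by simpa [Touch] using ht)⟩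
  have hX : ∀ k b, Conn Q (univ.filter fun i => (e.symm i).1 = k ∨ (e.symm i).2 = b) := by
    intro k b
    have c1 := conn_segment (G := Q) (f := fun j => e (k, ⟨min j m, by omega⟩)) (Nat.zero_le m)
      (fun j _ hj => hQ _ _ (by simp; omega) (by
        have t1 := hT k ⟨min j m, by omega⟩ m (by omega)
        have t2 := hT k ⟨min (j + 1) m, by omega⟩ 0 (by omega)
        have t3 := h3 (j * (m + 1) + m) (by nlinarith) k
        refine t3.mono (by simpa [hj.le] using t1) ?_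
        rw [show j * (m + 1) + m + 1 = (j + 1) * (m + 1) by ring]
        simpa [Nat.succ_le_of_lt hj] using t2))
    have c2 := (h1 _ (hb b 0 (by omega))).2.2.biUnion (G := Q) (f := fun k' => {e (k', b)})
      (fun _ _ => Conn.singleton _) (fun k1 _ k2 _ h => ⟨_, mem_singleton_self _, _,
        mem_singleton_self _, hQ _ _ (by simpa using h.1)
          (h.2.mono (hT _ _ 0 (by omega)) (hT _ _ 0 (by omega)))⟩)
    have m1 : ∀ b' : Fin (m + 1), e (k, b') ∈ (Icc 0 m).image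
        fun j => e (k, (⟨min j m, by omega⟩ : Fin (m + 1))) := fun b' =>
      mem_image.2 ⟨b', by simpa using Nat.le_of_lt_succ b'.2, by
        simp [Nat.le_of_lt_succ b'.2]⟩
    convert c1.union c2 (m1 b) (by simp) using 1
    ext i
    obtain ⟨⟨k', b'⟩, rfl⟩ := e.surjective i
    simp only [mem_filter, mem_univ, true_and, Equiv.symm_apply_apply, mem_union]
    refine or_congr ⟨fun h => h ▸ m1 b', fun h => ?_⟩ (by simp [eq_comm])
    obtain ⟨j, -, hj⟩ := mem_image.1 h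
    exact (congrArg Prod.fst (e.injective hj)).symm
  have hZ : ∀ Z : Finset X, ∃ x : Fin (m + 1) × Fin (m + 1), Z.card ≤ m →
      ∀ i ∈ Z, (e.symm i).1 ≠ x.1 ∧ (e.symm i).2 ≠ x.2 := fun Z => by
    by_cases hZ : Z.card ≤ m
    · obtain ⟨k, -, hk⟩ := exists_not_mem_of_card_lt (s := univ)
        (t := Z.image fun i => (e.symm i).1) (card_image_le.trans_lt (by simp; omega))
      obtain ⟨b, -, hb⟩ := exists_not_mem_of_card_lt (s := univ)
        (t := Z.image fun i => (e.symm i).2) (card_image_le.trans_lt (by simp; omega))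
      exact ⟨(k, b), fun _ i hi => ⟨fun h => hk (mem_image.2 ⟨i, hi, h⟩),
        fun h => hb (mem_image.2 ⟨i, hi, h⟩)⟩⟩
    · exact ⟨(0, 0), fun h => absurd h hZ⟩
  choose x hx using hZ
  refine ⟨fun Z => univ.filter fun i => (e.symm i).1 = (x Z).1 ∨ (e.symm i).2 = (x Z).2,
    fun Z hZ => ⟨hX _ _, fun i hi => mem_sdiff.2 ⟨mem_univ _, fun hc => ?_⟩⟩,
    fun Z Z' _ _ => ⟨e ((x Z).1, (x Z').2), by simp, by simp⟩⟩
  exact (mem_filter.1 hi).2.elim (hx Z hZ i hc).1 (hx Z hZ i hc).2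

theorem main : ∃ C c : ℕ, ∀ p q : ℕ, 1 ≤ p → 1 ≤ q → ∀ (V : Type) [Fintype V] (G : SimpleGraph V),
    C * p * q ^ c ≤ treewidth G → ∃ n : ℕ, 1 ≤ n ∧ ∃ S : Fin n → Set V,
      (∀ i j, i ≠ j → Disjoint (S i) (S j)) ∧ (∀ i, (G.induce (S i)).Connected) ∧
      (∀ i, p ≤ treewidth (G.induce (S i))) ∧
      q ≤ treewidth (SimpleGraph.fromRel fun i j : Fin n => ∃ x ∈ S i, ∃ y ∈ S j, G.Adj x y) := by
  obtain ⟨c, hc, h1⟩ := long_chain
  obtain ⟨ρ, lam, h2⟩ := pos_of_treewidth 1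
  obtain ⟨E, hE⟩ : ∃ E, E = 70778880000000 := ⟨_, rfl⟩
  refine ⟨lam * (2 * (16 ^ c * (E * 64 * 3))), 2 * c + 6, fun p q hp hq V _ G htw => ?_⟩
  obtain ⟨k, k1, k2⟩ : ∃ k, 2 * ((q + 1) * (q + 1)) ≤ 2 ^ k ∧ 2 ^ k ≤ 16 * q ^ 2 := by
    refine ⟨Nat.log 2 (2 * ((q + 1) * (q + 1))) + 1, (Nat.lt_pow_succ_log_self (by omega) _).le, ?_⟩
    have := Nat.pow_log_le_self 2 (show 2 * ((q + 1) * (q + 1)) ≠ 0 by positivity)
    rw [pow_succ]
    nlinarith
  obtain ⟨s, hs⟩ : ∃ s, s = EE (q + 1) * (2 * p + 1) := ⟨_, rfl⟩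
  have s1 : 1 < s := by
    have := Nat.one_le_pow 6 (q + 1) (by omega)
    rw [hs, EE_eq]; nlinarith
  have s2 : s ≤ E * 64 * 3 * (p * q ^ 6) := by
    have : (q + 1) ^ 6 ≤ (2 * q) ^ 6 := Nat.pow_le_pow_left (by omega) _
    rw [hs, EE_eq, ← hE]
    calc E * (q + 1) ^ 6 * (2 * p + 1) ≤ E * (2 * q) ^ 6 * (3 * p) :=
          Nat.mul_le_mul (Nat.mul_le_mul_left _ this) (by omega)
      _ = _ := by ring
  have s3 : c ^ k ≤ 16 ^ c * q ^ (2 * c) :=
    calc c ^ k ≤ (2 ^ c) ^ k := Nat.pow_le_pow_left Nat.lt_two_pow_self.le _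
      _ = (2 ^ k) ^ c := by rw [← pow_mul, ← pow_mul, mul_comm]
      _ ≤ (16 * q ^ 2) ^ c := Nat.pow_le_pow_left k2 _
      _ = _ := by rw [mul_pow, ← pow_mul]
  obtain ⟨u, hu⟩ : ∃ u, u = c ^ k * s := ⟨_, rfl⟩
  obtain ⟨w, σ, C, c1, c2, -, -⟩ := h2 G (2 * u) (by rw [hu]; positivity) (le_trans (by
    calc lam * (2 * u) ≤ lam * (2 * (16 ^ c * q ^ (2 * c) * (E * 64 * 3 * (p * q ^ 6)))) :=
          Nat.mul_le_mul_left _ (Nat.mul_le_mul_left _ (hu ▸ Nat.mul_le_mul s3 s2))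
      _ = _ := by ring) htw)
  have c3 := c2.cl 0 (by omega)
  obtain ⟨η⟩ := Function.Embedding.nonempty_of_card_le (α := Fin u ⊕ Fin u) (β := Fin w)
    (by simp; omega)
  have c4 : SC G (C 0).reg ((C 0).a ∘ η ∘ Sum.inl) ((C 0).a ∘ η ∘ Sum.inr) := by
    have := Fr.comp (G := G) ⟨_, c3.hv, c3.indep⟩ η.injective (K' := Fintype.card (Fin u))
      (by simp; omega)
    unfold SC
    convert this using 1
    ext (i | i) <;> rfl
  obtain ⟨n, φ, ψ, n1, R, A, B, n2, -⟩ := h1 k c4 s1 (by simp [hu])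
  obtain ⟨W, w1, w2, w3⟩ := wires (p := p) n2 (Nat.succ_pos q) (k1.trans n1) (by simp [hs])
  exact ⟨_, Nat.mul_pos (Nat.succ_pos q) (Nat.succ_pos q), cells finProdFinEquiv w1 w2 w3⟩

end Pool.Agent.MP_35cb46_co
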